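import Pool.Agent.N137.DR.Place

set_option autoImplicit false
set_option linter.style.haveILetI false

/-!
# Real absolute values centred at a rational point
-/

namespace Pool.Agent.N137.SH

open MvPolynomial Pool.Agent.N137.DR

theorem place_at (k : Type) [Field k] [CharZero k] [Algebra k ℂ] {n : ℕ} (y : Fin n → ℂ)
    (hy : ∃ i, y i ≠ 0)
    (hk : ∀ G : MvPolynomial (Fin n) k, aeval y G = 0 → constantCoeff G = 0) :
    ∃ (L : Type) (_ : Field L) (σ : L →+* ℂ) (c : k →+* L) (Y : Fin n → L)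
      (v : AbsoluteValue L ℝ), IsNonarchimedean v ∧ (∀ a, σ (c a) = algebraMap k ℂ a) ∧
      (∀ i, σ (Y i) = y i) ∧ (∀ a, a ≠ 0 → v (c a) = 1) ∧ ∀ i, v (Y i) < 1 := by
  classical
  let π : MvPolynomial (Fin n) k →ₐ[k] ℂ := aeval y
  let A : Subring ℂ := π.range.toSubring
  have hyA : ∀ i, y i ∈ A := fun i => ⟨X i, by simp [π]⟩
  let I : Ideal A := Ideal.span (Set.range fun i => (⟨y i, hyA i⟩ : A))
  have hI : I ≠ ⊤ := by
    intro h
    have h1 : (1 : A) ∈ I := by rw [h]; exact Submodule.mem_top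
    obtain ⟨a, ha⟩ := (Ideal.mem_span_range_iff_exists_fun).1 h1
    choose G hG using fun i => (a i).2
    have h2 := hk (1 - ∑ i, G i * X i) (by
      have h3 := congrArg (fun z : A => (z : ℂ)) ha
      simp only [Subring.coe_one] at h3
      push_cast at h3
      rw [map_sub, map_one, map_sum, ← h3, sub_eq_zero]
      refine Finset.sum_congr rfl fun i _ => ?_
      rw [map_mul, aeval_X]
      congr 1
      exact (hG i).symm)
    simp at h2
  obtain ⟨V, hAV, hIV⟩ := Ideal.image_subset_nonunits_valuationSubring I hI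
  have hyV : ∀ i, y i ∈ V.nonunits := fun i =>
    hIV ⟨⟨y i, hyA i⟩, Ideal.subset_span ⟨i, rfl⟩, rfl⟩
  obtain ⟨i₁, hi₁⟩ := hy
  obtain ⟨i₀, hi₀⟩ : ∃ i₀, ∀ j, V.valuation (y j) ≤ V.valuation (y i₀) := by
    haveI : Nonempty (Fin n) := ⟨i₁⟩
    exact Finite.exists_max (fun j => V.valuation (y j))
  have hy0 : y i₀ ≠ 0 := by
    intro h0
    have h1 := hi₀ i₁
    rw [h0, map_zero, nonpos_iff_eq_zero, map_eq_zero] at h1
    exact hi₁ h1
  have hquot : ∀ j, y j / y i₀ ∈ V := by
    intro j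
    rw [← V.valuation_le_one_iff, map_div₀]
    exact div_le_one_of_le₀ (hi₀ j) zero_le
  have hkV : ∀ a : k, algebraMap k ℂ a ∈ V := fun a => hAV ⟨C a, by simp [π]⟩
  let B : Subalgebra k ℂ := Algebra.adjoin k
    (insert (y i₀) (Set.range fun j => y j / y i₀))
  have hBV : ∀ b ∈ B, b ∈ V := by
    intro b hb
    induction hb using Algebra.adjoin_induction with
    | mem b hb =>
      rcases hb with rfl | ⟨j, rfl⟩
      · exact hAV (hyA i₀)
      · exact hquot j
    | algebraMap a => exact hkV a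
    | add a b _ _ ha hb => exact V.add_mem _ _ ha hb
    | mul a b _ _ ha hb => exact V.mul_mem _ _ ha hb
  haveI : Algebra.FiniteType k B := by
    exact (Subalgebra.fg_iff_finiteType _).1
      (Subalgebra.fg_def.2 ⟨_, (Set.finite_range _).insert _, rfl⟩)
  let ψ : B →+* V :=
    { toFun := fun b => ⟨b, hBV b b.2⟩
      map_one' := rfl
      map_mul' := fun _ _ => rfl
      map_zero' := rfl
      map_add' := fun _ _ => rfl }
  let 𝔮 : Ideal B := (IsLocalRing.maximalIdeal V).comap ψ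
  haveI : 𝔮.IsPrime := Ideal.comap_isPrime ψ _
  have huB : y i₀ ∈ B := Algebra.subset_adjoin (Set.mem_insert _ _)
  have hqB : ∀ j, y j / y i₀ ∈ B := fun j =>
    Algebra.subset_adjoin (Set.mem_insert_of_mem _ ⟨j, rfl⟩)
  let u : B := ⟨y i₀, huB⟩
  have hu : u ∈ 𝔮 := by
    show ψ u ∈ IsLocalRing.maximalIdeal V
    obtain ⟨h1, h2⟩ := V.mem_nonunits_iff_exists_mem_maximalIdeal.1 (hyV i₀)
    exact h2
  have hu0 : u ≠ 0 := fun h => hy0 (congrArg Subtype.val h)
  obtain ⟨K, hK, φ, v', hφ, hv', hv1, hvu, -⟩ := exists_place k B 𝔮 u hu hu0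
  have hinj : Function.Injective (B.val : B →ₐ[k] ℂ).toRingHom := Subtype.val_injective
  let F : FractionRing B →+* K := IsFractionRing.lift hφ
  let σ : FractionRing B →+* ℂ := IsFractionRing.lift hinj
  let v : AbsoluteValue (FractionRing B) ℝ := v'.comp F.injective
  have hF : ∀ z : B, F (algebraMap B _ z) = φ z := fun z => IsFractionRing.lift_algebraMap hφ z
  have hσ : ∀ z : B, σ (algebraMap B _ z) = (z : ℂ) :=
    fun z => IsFractionRing.lift_algebraMap hinj z
  have hvB : ∀ z : B, v (algebraMap B _ z) = v' (φ z) := by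
    intro z
    show v' (F (algebraMap B _ z)) = _
    rw [hF]
  let c : k →+* FractionRing B := (algebraMap B _).comp (algebraMap k B)
  refine ⟨FractionRing B, inferInstance, σ, c,
    fun j => algebraMap B _ (⟨y j / y i₀, hqB j⟩ * u), v, ?_, ?_, ?_, ?_, ?_⟩
  · intro z z'
    show v' (F (z + z')) ≤ max (v' (F z)) (v' (F z'))
    rw [map_add]
    exact hv' _ _
  · intro a
    exact hσ _
  · intro i
    rw [hσ]
    show y i / y i₀ * y i₀ = y i
    field_simp
  · intro a ha
    have h1 : v (c a) ≤ 1 := by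
      show v (algebraMap B _ _) ≤ 1
      rw [hvB]
      exact hv1 _
    have h2 : v (c a⁻¹) ≤ 1 := by
      show v (algebraMap B _ _) ≤ 1
      rw [hvB]
      exact hv1 _
    have h3 : v (c a) * v (c a⁻¹) = 1 := by
      rw [← map_mul v, ← map_mul c, mul_inv_cancel₀ ha, map_one, map_one]
    nlinarith [v.nonneg (c a), v.nonneg (c a⁻¹)]
  · intro i
    show v (algebraMap B _ (⟨y i / y i₀, hqB i⟩ * u)) < 1
    rw [map_mul, map_mul, hvB, hvB]
    exact (mul_le_of_le_one_left (v'.nonneg _) (hv1 _)).trans_lt hvu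

end Pool.Agent.N137.SH
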