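import Pool.Agent.N137.AO.FinB
import Pool.Agent.N137.AO.Alg

set_option autoImplicit false
set_option linter.style.haveILetI false

/-!
# Linear recurrence sequences with roots in a monoid
-/

namespace Pool.Agent.N137.SH

open Polynomial Filter Topology Pool.Agent.N137.AO

section basic

variable {K : Type} [NormedField K]

/-- the shift as an algebra homomorphism -/
def shA (K : Type) [NormedField K] : (ℕ → K) →ₐ[K] (ℕ → K) where
  toFun u := fun n => u (n + 1)
  map_one' := rfl
  map_mul' _ _ := rfl
  map_zero' := rfl
  map_add' _ _ := rfl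
  commutes' _ := rfl

theorem shA_lin : (shA K).toLinearMap = sh := rfl

/-- sequences killed by a polynomial in the shift with roots in `M` -/
def Cf (M : Submonoid K) (e : ℕ → K) : Prop :=
  ∃ t : Multiset K, (∀ μ ∈ t, μ ∈ M) ∧ aeval (sh : Module.End K (ℕ → K)) (pol t) e = 0

theorem aeval_pow_lin (μ : K) (k : ℕ) : aeval (sh : Module.End K (ℕ → K)) ((X - C μ) ^ k) =
    ((shA K).toLinearMap - μ • (1 : Module.End K (ℕ → K))) ^ k := by
  rw [map_pow, map_sub, aeval_X, aeval_C, shA_lin, Algebra.algebraMap_eq_smul_one]

theorem pol_replicate (k : ℕ) (μ : K) : pol (Multiset.replicate k μ) = (X - C μ) ^ k := by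
  rw [pol, Multiset.map_replicate, Multiset.prod_replicate]

theorem cf_add {M : Submonoid K} {e e' : ℕ → K} (h : Cf M e) (h' : Cf M e') : Cf M (e + e') := by
  obtain ⟨t, ht, he⟩ := h
  obtain ⟨t', ht', he'⟩ := h'
  refine ⟨t + t', fun μ hμ => (Multiset.mem_add.1 hμ).elim (ht μ) (ht' μ), ?_⟩
  rw [map_add, pol_le (Multiset.le_add_right t t') he, pol_le (Multiset.le_add_left t' t) he',
    add_zero]

theorem cf_zero (M : Submonoid K) : Cf M (0 : ℕ → K) := ⟨0, by simp, by simp⟩

theorem cf_iff (M : Submonoid K) (e : ℕ → K) : Cf M e ↔ e ∈ genW (shA K) M := by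
  classical
  constructor
  · rintro ⟨t, ht, he⟩
    have key : ∀ s : Finset K, (∀ μ ∈ s, μ ∈ M) → ∀ e : ℕ → K,
        aeval (sh : Module.End K (ℕ → K)) (∏ μ ∈ s, (X - C μ) ^ (t.count μ)) e = 0 →
        e ∈ genW (shA K) M := by
      intro s
      induction s using Finset.induction_on with
      | empty =>
        intro _ e he
        rw [Finset.prod_empty, map_one, Module.End.one_apply] at he
        rw [he]
        exact Submodule.zero_mem _
      | insert μ s hμ ih =>
        intro hs e he
        rw [Finset.prod_insert hμ] at he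
        have hcop : IsCoprime ((X - C μ) ^ (t.count μ)) (∏ μ ∈ s, (X - C μ) ^ (t.count μ)) := by
          refine IsCoprime.prod_right fun ν hν => IsCoprime.pow ?_
          refine isCoprime_X_sub_C_of_isUnit_sub ?_
          refine (sub_ne_zero.2 ?_).isUnit
          rintro rfl
          exact hμ hν
        have h1 : e ∈ LinearMap.ker (aeval (sh : Module.End K (ℕ → K)) ((X - C μ) ^ (t.count μ) *
            ∏ μ ∈ s, (X - C μ) ^ (t.count μ))) := he
        rw [← sup_ker_aeval_eq_ker_aeval_mul_of_coprime _ hcop] at h1
        obtain ⟨a, ha, b, hb, rfl⟩ := Submodule.mem_sup.1 h1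
        refine Submodule.add_mem _ ?_ (ih (fun ν hν => hs ν (Finset.mem_insert_of_mem hν)) b hb)
        refine Submodule.mem_iSup_of_mem (⟨μ, hs μ (Finset.mem_insert_self _ _)⟩ : M) ?_
        rw [Module.End.mem_maxGenEigenspace]
        refine ⟨t.count μ, ?_⟩
        have h2 : aeval (sh : Module.End K (ℕ → K)) ((X - C μ) ^ (t.count μ)) a = 0 := ha
        rwa [aeval_pow_lin] at h2
    refine key t.toFinset (fun μ hμ => ht μ (Multiset.mem_toFinset.1 hμ)) e ?_
    rw [← Finset.prod_multiset_map_count]
    exact he
  · intro h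
    unfold genW at h
    induction h using Submodule.iSup_induction' with
    | mem μ a ha =>
      rw [Module.End.mem_maxGenEigenspace] at ha
      obtain ⟨k, hk⟩ := ha
      refine ⟨Multiset.replicate k (μ : K), fun ν hν => ?_, ?_⟩
      · rw [Multiset.eq_of_mem_replicate hν]
        exact μ.2
      · rw [pol_replicate, aeval_pow_lin]
        exact hk
    | zero => exact cf_zero M
    | add x y _ _ hx hy => exact cf_add hx hy

theorem cf_mul {M : Submonoid K} {e e' : ℕ → K} (h : Cf M e) (h' : Cf M e') : Cf M (e * e') := by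
  rw [cf_iff] at *
  exact genW_mul _ _ h h'

theorem cf_const (M : Submonoid K) (c : K) : Cf M (fun _ => c) := by
  rw [cf_iff]
  exact genW_const _ _ c

theorem cf_smul {M : Submonoid K} {e : ℕ → K} (c : K) (h : Cf M e) : Cf M (c • e) := by
  obtain ⟨t, ht, he⟩ := h
  exact ⟨t, ht, by rw [map_smul, he, smul_zero]⟩

theorem cf_shift {M : Submonoid K} {e : ℕ → K} (h : Cf M e) : Cf M (fun n => e (n + 1)) := by
  obtain ⟨t, ht, he⟩ := h
  refine ⟨t, ht, ?_⟩
  have h1 := sh_comm (pol t) e
  rw [he, map_zero] at h1
  exact h1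

theorem cf_of_pol {M : Submonoid K} {e : ℕ → K} (s : Multiset K) (hs : ∀ μ ∈ s, μ ∈ M)
    (h : Cf M (aeval (sh : Module.End K (ℕ → K)) (pol s) e)) : Cf M e := by
  obtain ⟨t, ht, he⟩ := h
  refine ⟨t + s, fun μ hμ => (Multiset.mem_add.1 hμ).elim (ht μ) (hs μ), ?_⟩
  rw [pol_add, map_mul, Module.End.mul_apply, he]

/-- sequences of recurrences as a submodule -/
def cfSub (M : Submonoid K) : Submodule K (ℕ → K) where
  carrier := {e | Cf M e}
  add_mem' := cf_add
  zero_mem' := cf_zero M
  smul_mem' c _ h := cf_smul c h

theorem cf_cls {M M' : Submonoid K} (N r : ℕ) (hM : ∀ μ ∈ M, μ ^ N ∈ M') {e : ℕ → K}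
    (h : Cf M e) : Cf M' (fun n => e (N * n + r)) := by
  obtain ⟨t, ht, he⟩ := h
  refine ⟨t.map (fun μ => μ ^ N), fun μ hμ => ?_, cls_killed N r t e he⟩
  obtain ⟨ν, hν, rfl⟩ := Multiset.mem_map.1 hμ
  exact hM ν (ht ν hν)

end basic

section sol

variable {K : Type} [NormedField K] {ι : Type} [Fintype ι] [DecidableEq ι]

/-- solutions of inhomogeneous linear recurrences -/
theorem cf_sol {M : Submonoid K} (Λ : Matrix ι ι K) (s : Multiset K) (hs : ∀ μ ∈ s, μ ∈ M)
    (hΛ : Λ.charpoly = pol s) (w R : ℕ → ι → K) (hR : ∀ i, Cf M (fun n => R n i))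
    (hw : ∀ n, w (n + 1) = Λ.mulVec (w n) + R n) (i : ι) : Cf M (fun n => w n i) := by
  classical
  -- the operators on vector valued sequences
  let V := ℕ → ι → K
  let T : Module.End K V :=
    { toFun := fun u n => u (n + 1), map_add' := fun _ _ => rfl, map_smul' := fun _ _ => rfl }
  let A : Module.End K V :=
    { toFun := fun u n => Λ.mulVec (u n)
      map_add' := fun a b => by funext n; exact Matrix.mulVec_add Λ (a n) (b n)
      map_smul' := fun c a => by funext n; exact Matrix.mulVec_smul Λ c (a n) }
  let Nn : Submodule K V :=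
    { carrier := {u | ∀ i, Cf M (fun n => u n i)}
      add_mem' := fun {a b} ha hb i => cf_add (ha i) (hb i)
      zero_mem' := fun i => cf_zero M
      smul_mem' := fun c a ha i => cf_smul c (ha i) }
  have hT : ∀ u ∈ Nn, T u ∈ Nn := fun u hu i => cf_shift (hu i)
  have hA : ∀ u ∈ Nn, A u ∈ Nn := by
    intro u hu i
    have h1 : (fun n => (A u) n i) = ∑ j, Λ i j • fun n => u n j := by
      funext n
      simp [A, Matrix.mulVec, dotProduct]
    rw [h1]
    exact Submodule.sum_mem (cfSub M) fun j _ => cf_smul _ (hu j)
  have hTn : ∀ (n : ℕ), ∀ u ∈ Nn, (T ^ n) u ∈ Nn := by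
    intro n
    induction n with
    | zero => intro u hu; simpa using hu
    | succ n ih =>
      intro u hu
      rw [pow_succ, Module.End.mul_apply]
      exact ih _ (hT u hu)
  have hAn : ∀ (n : ℕ), ∀ u ∈ Nn, (A ^ n) u ∈ Nn := by
    intro n
    induction n with
    | zero => intro u hu; simpa using hu
    | succ n ih =>
      intro u hu
      rw [pow_succ, Module.End.mul_apply]
      exact ih _ (hA u hu)
  have hcomm : ∀ n : ℕ, ∀ u, T ((A ^ n) u) = (A ^ n) (T u) := by
    intro n
    induction n with
    | zero => intro u; rfl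
    | succ n ih =>
      intro u
      rw [pow_succ, Module.End.mul_apply, Module.End.mul_apply, ih]
      rfl
  have hTA : T w - A w ∈ Nn := by
    have h1 : T w - A w = R := by
      funext n
      show w (n + 1) - Λ.mulVec (w n) = R n
      rw [hw, add_sub_cancel_left]
    rw [h1]
    exact hR
  have hpow : ∀ n : ℕ, (T ^ n) w - (A ^ n) w ∈ Nn := by
    intro n
    induction n with
    | zero => simp
    | succ n ih =>
      have h1 : (T ^ (n + 1)) w - (A ^ (n + 1)) w = T ((T ^ n) w - (A ^ n) w) +
          (A ^ n) (T w - A w) := by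
        rw [pow_succ', pow_succ, Module.End.mul_apply, Module.End.mul_apply, map_sub, map_sub,
          hcomm]
        abel
      rw [h1]
      exact Nn.add_mem (hT _ ih) (hAn n _ hTA)
  have hpoly : ∀ P : K[X], (aeval T P) w - (aeval A P) w ∈ Nn := by
    intro P
    induction P using Polynomial.induction_on' with
    | add p q hp hq =>
      have h1 : (aeval T (p + q)) w - (aeval A (p + q)) w =
          ((aeval T p) w - (aeval A p) w) + ((aeval T q) w - (aeval A q) w) := by
        rw [map_add, map_add, LinearMap.add_apply, LinearMap.add_apply]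
        abel
      rw [h1]
      exact Nn.add_mem hp hq
    | monomial n c =>
      have h1 : (aeval T (monomial n c)) w - (aeval A (monomial n c)) w =
          c • ((T ^ n) w - (A ^ n) w) := by
        simp [aeval_monomial, Module.End.mul_apply, Algebra.algebraMap_eq_smul_one, smul_sub]
      rw [h1]
      exact Nn.smul_mem c (hpow n)
  have hCH : (aeval A Λ.charpoly) w = 0 := by
    have h1 : ∀ (P : K[X]) (n : ℕ), ((aeval A P) w) n = (aeval Λ P).mulVec (w n) := by
      intro P n
      induction P using Polynomial.induction_on' with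
      | add p q hp hq =>
        rw [map_add, LinearMap.add_apply, Pi.add_apply, hp, hq, map_add, Matrix.add_mulVec]
      | monomial k c =>
        have h2 : ∀ k : ℕ, ((A ^ k) w) n = (Λ ^ k).mulVec (w n) := by
          intro k
          induction k with
          | zero => simp
          | succ k ih =>
            rw [pow_succ', pow_succ', Module.End.mul_apply]
            show Λ.mulVec (((A ^ k) w) n) = _
            rw [ih, Matrix.mulVec_mulVec]
        rw [aeval_monomial, aeval_monomial, Module.End.mul_apply,
          Algebra.algebraMap_eq_smul_one, Algebra.algebraMap_eq_smul_one, LinearMap.smul_apply,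
          Module.End.one_apply, Pi.smul_apply, h2, Matrix.smul_mul, one_mul,
          Matrix.smul_mulVec]
    funext n
    rw [h1, Matrix.aeval_self_charpoly, Matrix.zero_mulVec]
    rfl
  have hfin : (aeval T (pol s)) w ∈ Nn := by
    have h1 := hpoly Λ.charpoly
    rw [hCH, sub_zero, hΛ] at h1
    exact h1
  have hcoord : ∀ P : K[X], (fun n => ((aeval T P) w) n i) =
      aeval (sh : Module.End K (ℕ → K)) P (fun n => w n i) := by
    intro P
    induction P using Polynomial.induction_on' with
    | add p q hp hq =>
      rw [map_add, map_add, LinearMap.add_apply, LinearMap.add_apply, ← hp, ← hq]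
      rfl
    | monomial k c =>
      have h2 : ∀ (k : ℕ) (u : V) (n : ℕ), ((T ^ k) u) n = u (n + k) := by
        intro k
        induction k with
        | zero => intro u n; rfl
        | succ k ih =>
          intro u n
          rw [pow_succ, Module.End.mul_apply, ih]
          show u (n + k + 1) = _
          rw [add_assoc]
      funext n
      rw [aeval_monomial, aeval_monomial, Module.End.mul_apply, Module.End.mul_apply,
        Algebra.algebraMap_eq_smul_one, Algebra.algebraMap_eq_smul_one, LinearMap.smul_apply,
        LinearMap.smul_apply, Module.End.one_apply, Module.End.one_apply, Pi.smul_apply,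
        Pi.smul_apply, Pi.smul_apply, h2, sh_pow_apply]
  refine cf_of_pol s hs ?_
  rw [← hcoord]
  exact hfin i

end sol

end Pool.Agent.N137.SH
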