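import Pool.Agent.N137.SH.Loc
import Pool.Agent.N137.DR.Generic

set_option autoImplicit false
set_option linter.style.haveILetI false
set_option linter.unusedSectionVars false

/-!
# Iterates of a system of polynomials
-/

namespace Pool.Agent.N137.SH

open MvPolynomial

/-- the self-map of affine space given by a system of polynomials -/
noncomputable def ev {R : Type} [CommSemiring R] {m : ℕ} (F : Fin m → MvPolynomial (Fin m) R)
    (p : Fin m → R) : Fin m → R := fun i => eval p (F i)

section

variable {R : Type} [CommSemiring R] {m : ℕ} (F : Fin m → MvPolynomial (Fin m) R)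

/-- the iterates of a system of polynomials -/
noncomputable def itP : ℕ → Fin m → MvPolynomial (Fin m) R
  | 0 => X
  | n + 1 => fun i => bind₁ (itP n) (F i)

theorem ev_itP (n : ℕ) (p : Fin m → R) : ev (itP F n) p = (ev F)^[n] p := by
  induction n with
  | zero => funext i; simp [ev, itP]
  | succ n ih =>
    rw [Function.iterate_succ_apply', ← ih]
    funext i
    show eval p (bind₁ (itP F n) (F i)) = eval (ev (itP F n) p) (F i)
    rw [eval_bind]
    rfl

theorem eval_itP (n : ℕ) (p : Fin m → R) (i : Fin m) :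
    eval p (itP F n i) = (ev F)^[n] p i := congrFun (ev_itP F n p) i

theorem eval_bind_itP (n : ℕ) (p : Fin m → R) (q : MvPolynomial (Fin m) R) :
    eval p (bind₁ (itP F n) q) = eval ((ev F)^[n] p) q := by
  rw [eval_bind, ← ev_itP]
  rfl

theorem itP_homog {d : ℕ} (hF : ∀ i, (F i).IsHomogeneous d) (n : ℕ) (i : Fin m) :
    (itP F n i).IsHomogeneous (d ^ n) := by
  induction n generalizing i with
  | zero => rw [pow_zero]; exact isHomogeneous_X R i
  | succ n ih =>
    rw [pow_succ]
    exact (hF i).aeval _ ih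

theorem bind_homog {d e : ℕ} (hF : ∀ i, (F i).IsHomogeneous d) (n : ℕ)
    {q : MvPolynomial (Fin m) R} (hq : q.IsHomogeneous e) :
    (bind₁ (itP F n) q).IsHomogeneous (d ^ n * e) := hq.aeval _ (itP_homog F hF n)

theorem eval_smul_homog {G : MvPolynomial (Fin m) R} {e : ℕ}
    (hG : G.IsHomogeneous e) (c : R) (z : Fin m → R) :
    eval (fun j => c * z j) G = c ^ e * eval z G := by
  rw [eval_eq', eval_eq', Finset.mul_sum]
  refine Finset.sum_congr rfl fun β hβ => ?_
  rw [← Pool.Agent.N137.DR.sum_of_homog hG hβ, ← Finset.prod_pow_eq_pow_sum]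
  simp only [mul_pow, Finset.prod_mul_distrib]
  ring

theorem iter_smul {d : ℕ} (hF : ∀ i, (F i).IsHomogeneous d) (c : R) (z : Fin m → R) (n : ℕ) :
    (ev F)^[n] (fun j => c * z j) = fun j => c ^ d ^ n * (ev F)^[n] z j := by
  funext i
  rw [← eval_itP, ← eval_itP, eval_smul_homog (itP_homog F hF n i)]

end

section

variable {R S : Type} [CommSemiring R] [CommSemiring S] {m : ℕ}
  (F : Fin m → MvPolynomial (Fin m) R) (σ : R →+* S)

theorem ev_map_iter (n : ℕ) (p : Fin m → R) :
    (ev fun i => map σ (F i))^[n] (fun i => σ (p i)) = fun i => σ ((ev F)^[n] p i) := by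
  induction n with
  | zero => rfl
  | succ n ih =>
    rw [Function.iterate_succ_apply', Function.iterate_succ_apply', ih]
    funext i
    show eval _ (map σ (F i)) = σ (eval _ (F i))
    rw [eval_map, eval₂_comp]
    rfl

theorem itP_map (n : ℕ) (i : Fin m) : itP (fun i => map σ (F i)) n i = map σ (itP F n i) := by
  induction n generalizing i with
  | zero => simp [itP]
  | succ n ih =>
    show bind₁ (itP (fun i => map σ (F i)) n) (map σ (F i)) = map σ (bind₁ (itP F n) (F i))
    rw [map_bind₁]
    congr 2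
    funext j
    exact ih j

end

section

variable {k : Type} [Field k] {m : ℕ} (F : Fin m → MvPolynomial (Fin m) k)
  (L h : MvPolynomial (Fin m) k)

/-- the cofactors for the iterates -/
noncomputable def hP (D : ℕ) : ℕ → MvPolynomial (Fin m) k
  | 0 => 1
  | n + 1 => hP D n ^ D * bind₁ (itP F n) h

theorem bind_hP {D : ℕ} (hL : bind₁ F L = L ^ D * h) (n : ℕ) :
    bind₁ (itP F n) L = L ^ D ^ n * hP F h D n := by
  induction n with
  | zero => simp [itP, hP, bind₁_X_left]
  | succ n ih =>
    have h1 : bind₁ (itP F (n + 1)) L = bind₁ (itP F n) (bind₁ F L) := by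
      rw [bind₁_bind₁]
      rfl
    rw [h1, hL, map_mul, map_pow, ih, hP]
    ring

theorem hP_ne {D : ℕ} (p : Fin m → k) (hh : ∀ n, eval ((ev F)^[n] p) h ≠ 0) (n : ℕ) :
    eval p (hP F h D n) ≠ 0 := by
  induction n with
  | zero => simp [hP]
  | succ n ih =>
    rw [hP, map_mul, map_pow, eval_bind_itP]
    exact mul_ne_zero (pow_ne_zero _ ih) (hh n)

theorem dd_itP (n : ℕ) (p v : Fin m → k) :
    dd (itP F (n + 1)) p v = dd F ((ev F)^[n] p) (dd (itP F n) p v) := by
  funext i
  unfold dd
  simp only [Finset.mul_sum]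
  rw [Finset.sum_comm]
  refine Finset.sum_congr rfl fun j _ => ?_
  show eval p (pderiv j (bind₁ (itP F n) (F i))) * v j = _
  rw [pderiv_bind, map_sum, Finset.sum_mul]
  refine Finset.sum_congr rfl fun l _ => ?_
  rw [map_mul, eval_bind_itP]
  ring

theorem inj_itP {D : ℕ} (hD : 2 ≤ D) (hL : bind₁ F L = L ^ D * h) (p : Fin m → k)
    (hLp : eval p L = 0)
    (hinj : ∀ n v, dd F ((ev F)^[n] p) v = 0 → dl1 L ((ev F)^[n] p) v = 0 → v = 0) (n : ℕ)
    (v : Fin m → k) (h1 : dd (itP F n) p v = 0) (h2 : dl1 L p v = 0) : v = 0 := by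
  induction n with
  | zero =>
    have h3 : dd (itP F 0) p v = v := by
      funext i
      unfold dd
      simp only [itP, pderiv_X]
      rw [Finset.sum_eq_single i]
      · simp
      · intro j _ hj
        rw [Pi.single_eq_of_ne (Ne.symm hj)]
        simp
      · intro hi
        exact absurd (Finset.mem_univ i) hi
    rw [h3] at h1
    exact h1
  | succ n ih =>
    rw [dd_itP] at h1
    refine ih (hinj n _ h1 ?_)
    rcases Nat.eq_zero_or_pos n with rfl | hn
    · have h3 : dd (itP F 0) p v = v := by
        funext i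
        unfold dd
        simp only [itP, pderiv_X]
        rw [Finset.sum_eq_single i]
        · simp
        · intro j _ hj
          rw [Pi.single_eq_of_ne (Ne.symm hj)]
          simp
        · intro hi
          exact absurd (Finset.mem_univ i) hi
      rw [h3]
      exact h2
    · have h4 : 2 ≤ D ^ n := hD.trans (Nat.le_self_pow hn.ne' D)
      have h5 := dl_dd h4 (bind_hP F L h hL n) hLp v
      have h6 : (fun i => eval p (itP F n i)) = (ev F)^[n] p := funext (eval_itP F n p)
      rw [h6] at h5
      exact h5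

theorem dd_smul {d : ℕ} (hF : ∀ i, (F i).IsHomogeneous d) (c : k) (p v : Fin m → k) (i : Fin m) :
    dd F (fun j => c * p j) v i = c ^ (d - 1) * dd F p v i := by
  unfold dd
  rw [Finset.mul_sum]
  refine Finset.sum_congr rfl fun j _ => ?_
  rw [eval_smul_homog ((hF i).pderiv)]
  ring

theorem dl1_smul {e : ℕ} (hL : L.IsHomogeneous e) (c : k) (p v : Fin m → k) :
    dl1 L (fun j => c * p j) v = c ^ (e - 1) * dl1 L p v := by
  unfold dl1
  rw [Finset.mul_sum]
  refine Finset.sum_congr rfl fun j _ => ?_
  rw [eval_smul_homog (hL.pderiv)]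
  ring

end

end Pool.Agent.N137.SH
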