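import Pool.Agent.N137.SH.Orb

set_option autoImplicit false
set_option linter.style.haveILetI false

/-!
# The expansion of the orbit along the stable leaves
-/

namespace Pool.Agent.N137.SH

open MvPolynomial Filter Topology Pool.Agent.N137.AO

namespace Res

variable {K : Type} [NormedField K] [IsUltrametricDist K] {ι : Type} [Fintype ι]
  [DecidableEq ι] (D : Res K ι)

/-- evaluation in a ring of sequences -/
theorem _root_.Pool.Agent.N137.SH.ev_pt_mem (A : Subring (ℕ → K)) (hA : ∀ c : K, ‖c‖ ≤ 1 → (fun _ => c) ∈ A)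
    (G : MvPolynomial (Option ι) (oK K)) {w : ℕ → K} (hw : w ∈ A) {x : ℕ → ι → K}
    (hx : ∀ i, (fun n => x n i) ∈ A) : (fun n => aeval (pt (w n) (x n)) G) ∈ A := by
  have h1 := ev_mem A hA G (fun o n => pt (w n) (x n) o) (by
    intro o
    cases o with
    | none => exact hw
    | some i => exact hx i)
  exact h1

theorem _root_.Pool.Agent.N137.SH.ss_c {M : Submonoid K} (c : K) (hc : ‖c‖ ≤ 1) : (fun _ => c) ∈ SS M := ss_const hc

/-- the residual orbit is a uniform limit of recurrences -/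
theorem zt_ss {zt : ℕ → ι → K} (hz1 : ∀ n i, ‖zt n i - D.p i‖ ≤ D.θ)
    (hz2 : ∀ n i, zt (n + 1) i = aeval (pt 0 (zt n)) (D.Φ i)) (i : ι) :
    (fun n => zt n i) ∈ SS D.M := by
  have key : ∀ k : ℕ, ∃ q : ℕ → ι → K, (∀ i, (fun n => q n i) ∈ SS D.M) ∧
      (∀ n i, ‖q n i - D.p i‖ ≤ D.θ) ∧ ∀ n i, ‖zt n i - q n i‖ ≤ D.θ ^ (k + 1) := by
    intro k
    induction k with
    | zero =>
      refine ⟨fun _ => D.p, fun i => ss_const (D.hp i), fun n i => ?_, fun n i => ?_⟩
      · simpa using D.θ_pos.le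
      · simpa using hz1 n i
    | succ k ih =>
      obtain ⟨q, hq, hqp, hqz⟩ := ih
      let R : ℕ → ι → K := fun n i => aeval (pt 0 (q n)) (D.Φ i) - D.Λ.mulVec (q n) i
      have hR : ∀ i, (fun n => R n i) ∈ SS D.M := by
        intro i
        refine (SS D.M).sub_mem (ev_pt_mem (SS D.M) ss_c (D.Φ i) (w := fun _ => 0)
          (ss_const zero_le) hq) ?_
        have h1 : (fun n => D.Λ.mulVec (q n) i) = ∑ j, (fun _ => D.Λ i j) * fun n => q n j := by
          funext n
          simp [Matrix.mulVec, dotProduct]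
        rw [h1]
        exact (SS D.M).sum_mem fun j _ => (SS D.M).mul_mem (ss_const (D.Λ_le i j)) (hq j)
      let w : ℕ → ι → K := fun n => Nat.rec (zt 0) (fun n x => D.Λ.mulVec x + R n) n
      have hw : ∀ n, w (n + 1) = D.Λ.mulVec (w n) + R n := fun n => rfl
      have hwSS : ∀ i, (fun n => w n i) ∈ SS D.M := fun i =>
        ss_sol D.Λ D.Λ_le D.s D.hs D.hchar w R hR (fun i => D.near_le (hz1 0) i) hw i
      have herr : ∀ n i, ‖zt n i - w n i‖ ≤ D.θ ^ (k + 2) := by
        intro n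
        induction n with
        | zero =>
          intro i
          have : w 0 = zt 0 := rfl
          rw [this, sub_self, norm_zero]
          exact pow_nonneg D.θ_pos.le _
        | succ n ih =>
          intro i
          have h1 : zt (n + 1) i - w (n + 1) i = D.Λ.mulVec (zt n - w n) i +
              (aeval (pt 0 (zt n)) (D.Φ i) - aeval (pt 0 (q n)) (D.Φ i) -
                D.Λ.mulVec (zt n - q n) i) := by
            rw [hz2, hw, Matrix.mulVec_sub, Matrix.mulVec_sub]
            simp only [Pi.add_apply, Pi.sub_apply, R]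
            ring
          rw [h1]
          refine ultra_add (mulVec_le D.Λ_le (pow_nonneg D.θ_pos.le _) ih i) ?_
          refine (D.lin (hz1 n) (hqp n) (pow_nonneg D.θ_pos.le _) (hqz n) i).trans
            (le_of_eq ?_)
          ring
      refine ⟨w, hwSS, fun n i => ?_, herr⟩
      have h1 : w n i - D.p i = (zt n i - D.p i) - (zt n i - w n i) := by ring
      rw [h1]
      refine ultra_sub (hz1 n i) ((herr n i).trans ?_)
      calc D.θ ^ (k + 2) ≤ D.θ ^ 1 := pow_le_pow_of_le_one D.θ_pos.le D.θ_lt.le (by omega)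
        _ = D.θ := pow_one _
  refine ss_closed fun ε hε => ?_
  obtain ⟨k, hk⟩ := exists_pow_lt_of_lt_one hε D.θ_lt
  obtain ⟨q, hq, -, hqz⟩ := key k
  refine ⟨fun n => q n i, hq i, fun n => (hqz n i).trans ?_⟩
  refine le_trans ?_ hk.le
  exact pow_le_pow_of_le_one D.θ_pos.le D.θ_lt.le (Nat.le_succ k)

end Res

namespace Dat

variable {K : Type} [NormedField K] [IsUltrametricDist K] {ι : Type} [Fintype ι]
  [DecidableEq ι] (D : Dat K ι)

theorem H_tt (k : ℕ) (hz : ∀ i, TT D.M D.u k (fun n => D.z n i)) : TT D.M D.u k D.H := by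
  have h1 : D.H = D.u ^ (D.D - 2) * fun n => aeval (pt (D.u n) (D.z n)) D.h := rfl
  rw [h1]
  exact (TR D.M D.u_le k).mul_mem ((TR D.M D.u_le k).pow_mem (tt_u D.u_le k) _)
    (ev_pt_mem (TR D.M D.u_le k) (tr_const D.u_le) _ (tt_u D.u_le k) hz)

/-- **the Newton step** -/
theorem newton (k : ℕ) (hz : ∀ i, TT D.M D.u (k + 1) (fun n => D.z n i)) (i : ι) :
    TT D.M D.u (k + 2) (fun n => D.z n i) := by
  have hu := D.u_le
  choose q δ hq hδ hqδ using fun i => tt_split hu (hz i)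
  -- the approximate orbit
  let x : ℕ → ι → K := fun n i => q i n
  have hzx : ∀ n i, D.z n i = x n i + D.u n ^ (k + 1) * δ i n := fun n i => congrFun (hqδ i) n
  have hpw : ∀ n i, ‖D.u n ^ (k + 1) * δ i n‖ ≤ ‖D.u n‖ ^ (k + 1) := by
    intro n i
    rw [norm_mul, norm_pow]
    exact mul_le_of_le_one_right (pow_nonneg (norm_nonneg _) _) (hδ i n)
  have hpw1 : ∀ n, ‖D.u n‖ ^ (k + 1) ≤ D.θ := by
    intro n
    calc ‖D.u n‖ ^ (k + 1) ≤ ‖D.u n‖ ^ 1 :=
          pow_le_pow_of_le_one (norm_nonneg _) (hu n) (by omega)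
      _ ≤ D.θ := by rw [pow_one]; exact D.u_le_θ n
  have hxp : ∀ n i, ‖x n i - D.p i‖ ≤ D.θ := by
    intro n i
    have h1 : x n i - D.p i = (D.z n i - D.p i) - D.u n ^ (k + 1) * δ i n := by
      rw [hzx]
      ring
    rw [h1]
    exact ultra_sub (D.z_near n i) ((hpw n i).trans (hpw1 n))
  have hx1 : ∀ n i, ‖x n i‖ ≤ 1 := fun n i => D.near_le (hxp n) i
  -- the differentials
  let J : ι → ι → ℕ → K := fun i j n => aeval (pt (D.u n) (x n)) (pderiv (some j) (D.Φ i))
  have hJ : ∀ i j k, TT D.M D.u k (J i j) := by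
    intro i j k
    exact ev_pt_mem (TR D.M hu k) (tr_const hu) _ (tt_u hu k) (fun i => hq i k)
  choose J0 hJ0 J1 hJ1 hJJ using fun i j => hJ i j 1
  -- the remainder
  let rem : ι → ℕ → K := fun i n => aeval (pt (D.u n) (D.z n)) (D.Φ i) -
    aeval (pt (D.u n) (x n)) (D.Φ i) - ∑ j, J i j n * (D.u n ^ (k + 1) * δ j n)
  have hrem : ∀ i, TT D.M D.u (k + 2) (rem i) := by
    intro i
    refine tt_of_le hu D.u_ne fun n => ?_
    have h1 := ev_taylor (D.Φ i) (x := pt (D.u n) (x n))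
      (h := pt 0 (fun i => D.u n ^ (k + 1) * δ i n)) (pt_le (hu n) (hx1 n))
      (C := ‖D.u n‖ ^ (k + 1)) (pow_nonneg (norm_nonneg _) _)
      ((hpw1 n).trans D.θ_lt.le) (by
        intro o
        cases o with
        | none => simp
        | some i => exact hpw n i)
    have h2 : pt (D.u n) (x n) + pt 0 (fun i => D.u n ^ (k + 1) * δ i n) =
        pt (D.u n) (D.z n) := by
      funext o
      cases o with
      | none => simp
      | some i => simp [hzx]
    rw [h2, Fintype.sum_option] at h1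
    simp only [pt_none, mul_zero, pt_some, zero_add] at h1
    refine h1.trans ?_
    rw [← pow_mul]
    exact pow_le_pow_of_le_one (norm_nonneg _) (hu n) (by omega)
  -- the right hand side
  let ρ : ι → ℕ → K := fun i n => D.z (n + 1) i - aeval (pt (D.u n) (x n)) (D.Φ i) - rem i n -
    D.u n ^ (k + 2) * ∑ j, J1 i j n * δ j n
  have hρ : ∀ i, TT D.M D.u (k + 2) (ρ i) := by
    intro i
    have h1 : TT D.M D.u (k + 2) (fun n => D.z (n + 1) i) :=
      tt_shift' hu D.u_H (tt_mono1 hu (D.H_tt (k + 1) hz)) (hz i)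
    have h2 : TT D.M D.u (k + 2) (fun n => aeval (pt (D.u n) (x n)) (D.Φ i)) :=
      ev_pt_mem (TR D.M hu (k + 2)) (tr_const hu) _ (tt_u hu _) (fun i => hq i _)
    have h3 : TT D.M D.u (k + 2) (D.u ^ (k + 2) * fun n => ∑ j, J1 i j n * δ j n) := by
      refine tt_upow hu (j := 0) (k := k + 2) ?_
      intro n
      refine IsUltrametricDist.norm_sum_le_of_forall_le_of_nonneg zero_le_one fun j _ => ?_
      rw [norm_mul]
      exact mul_le_one₀ (hJ1 i j n) (norm_nonneg _) (hδ j n)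
    exact (TR D.M hu (k + 2)).sub_mem ((TR D.M hu (k + 2)).sub_mem
      ((TR D.M hu (k + 2)).sub_mem h1 h2) (hrem i)) h3
  have hlin : ∀ i n, ∑ j, J0 i j n * (D.u n ^ (k + 1) * δ j n) = ρ i n := by
    intro i n
    have h1 : ∀ j, J0 i j n * (D.u n ^ (k + 1) * δ j n) =
        J i j n * (D.u n ^ (k + 1) * δ j n) - D.u n ^ (k + 2) * (J1 i j n * δ j n) := by
      intro j
      have h2 : J i j n = J0 i j n + D.u n * J1 i j n := congrFun (hJJ i j) n
      rw [h2]
      ring
    rw [Finset.sum_congr rfl fun j _ => h1 j, Finset.sum_sub_distrib, ← Finset.mul_sum]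
    simp only [ρ, rem, D.hz]
    ring
  -- inversion
  let 𝔸 : Matrix ι ι (SS D.M) := Matrix.of fun i j => ⟨J0 i j, hJ0 i j⟩
  let evn : ℕ → SS D.M →+* K := fun n => (Pi.evalRingHom (fun _ : ℕ => K) n).comp (SS D.M).subtype
  have hevn : ∀ n (s : SS D.M), evn n s = (s : ℕ → K) n := fun n s => rfl
  let An : ℕ → Matrix ι ι K := fun n => Matrix.of fun i j => J0 i j n
  have hmap : ∀ n, (evn n).mapMatrix 𝔸 = An n := by
    intro n
    ext i j
    rfl
  have hdet : ∀ n, (An n).det = ((𝔸.det : SS D.M) : ℕ → K) n := by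
    intro n
    rw [← hmap, ← RingHom.map_det]
    rfl
  have hadj : ∀ n i j, (An n).adjugate i j = ((𝔸.adjugate i j : SS D.M) : ℕ → K) n := by
    intro n i j
    rw [← hmap, ← RingHom.map_adjugate]
    rfl
  have hJ0Λ : ∀ n i j, ‖J0 i j n - D.Λ i j‖ ≤ D.θ := by
    intro n i j
    have h2 : J i j n = J0 i j n + D.u n * J1 i j n := congrFun (hJJ i j) n
    have h3 : J0 i j n - D.Λ i j = (J i j n - D.Λ i j) - D.u n * J1 i j n := by
      rw [h2]
      ring
    rw [h3]
    refine ultra_sub ?_ ?_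
    · refine ev_lip _ (pt_le (hu n) (hx1 n)) (pt_le zero_le D.hp) D.θ_pos.le ?_
      intro o
      cases o with
      | none => simpa using D.u_le_θ n
      | some i => exact hxp n i
    · rw [norm_mul]
      exact (mul_le_of_le_one_right (norm_nonneg _) (hJ1 i j n)).trans (D.u_le_θ n)
  have hdetΛ : ∀ n, ‖((𝔸.det : SS D.M) : ℕ → K) n - D.Λ.det‖ ≤ D.θ := by
    intro n
    rw [← hdet]
    exact det_lip _ _ (fun i j => (hJ0 i j).2 n) D.Λ_le D.θ_pos.le fun i j => hJ0Λ n i j
  have hinv : (fun n => (((𝔸.det : SS D.M) : ℕ → K) n)⁻¹) ∈ SS D.M :=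
    ss_inv (𝔸.det).2 D.hdet D.θ_pos.le D.θ_lt hdetΛ
  have hdet0 : ∀ n, ((𝔸.det : SS D.M) : ℕ → K) n ≠ 0 := by
    intro n h0
    have h1 := hdetΛ n
    have h2 : ‖D.Λ.det‖ = 1 := D.hdet
    rw [h0, zero_sub, norm_neg, h2] at h1
    exact absurd D.θ_lt (not_lt.2 h1)
  have hsolve : ∀ i n, D.u n ^ (k + 1) * δ i n = (((𝔸.det : SS D.M) : ℕ → K) n)⁻¹ *
      ∑ j, ((𝔸.adjugate i j : SS D.M) : ℕ → K) n * ρ j n := by
    intro i n
    have h1 : (An n).mulVec (fun j => D.u n ^ (k + 1) * δ j n) = fun i => ρ i n := by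
      funext i
      rw [Matrix.mulVec, dotProduct, ← hlin i n]
      rfl
    have h2 : (An n).adjugate.mulVec (fun i => ρ i n) =
        (An n).det • (fun j => D.u n ^ (k + 1) * δ j n) := by
      rw [← h1, Matrix.mulVec_mulVec, Matrix.adjugate_mul, Matrix.smul_mulVec,
        Matrix.one_mulVec]
    have h3 := congrFun h2 i
    rw [Matrix.mulVec, dotProduct, Pi.smul_apply, smul_eq_mul, hdet] at h3
    simp only [hadj] at h3
    rw [h3, inv_mul_cancel_left₀ (hdet0 n)]
  have hfin : (fun n => D.z n i) = q i + (fun n => (((𝔸.det : SS D.M) : ℕ → K) n)⁻¹) *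
      ∑ j, ((𝔸.adjugate i j : SS D.M) : ℕ → K) * ρ j := by
    funext n
    rw [hzx, hsolve]
    simp only [Pi.add_apply, Pi.mul_apply, Finset.sum_apply]
    rfl
  rw [hfin]
  exact (TR D.M hu (k + 2)).add_mem (hq i _) ((TR D.M hu (k + 2)).mul_mem (tt_ss _ hinv)
    ((TR D.M hu (k + 2)).sum_mem fun j _ => (TR D.M hu (k + 2)).mul_mem
      (tt_ss _ (𝔸.adjugate i j).2) (hρ j)))

variable [CompleteSpace K]

theorem z_tt (k : ℕ) : ∀ i, TT D.M D.u k (fun n => D.z n i) := by
  obtain ⟨zt, h1, h2⟩ := D.exists_zt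
  have hnear : ∀ n i, ‖zt n i - D.p i‖ ≤ D.θ := by
    intro n i
    have h3 : zt n i - D.p i = (zt n i - D.z n i) + (D.z n i - D.p i) := by ring
    rw [h3]
    exact ultra_add ((h1 n i).trans (D.u_le_θ n)) (D.z_near n i)
  have hbase : ∀ i, TT D.M D.u 1 (fun n => D.z n i) := by
    intro i
    have h3 : (fun n => D.z n i) = (fun n => zt n i) + fun n => D.z n i - zt n i := by
      funext n
      simp only [Pi.add_apply]
      ring
    rw [h3]
    refine (TR D.M D.u_le 1).add_mem (tt_ss 1 (D.zt_ss hnear h2 i))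
      (tt_of_le D.u_le D.u_ne fun n => ?_)
    rw [pow_one, ← norm_neg, neg_sub]
    exact h1 n i
  induction k with
  | zero => exact fun i => tt_mono D.u_le (Nat.zero_le 1) (hbase i)
  | succ k ih =>
    rcases k with _ | k
    · exact hbase
    · exact D.newton k ih

/-- **The dichotomy for an orbit near the hypersurface.** -/
theorem core (N r : ℕ) (hN : N ≠ 0)
    (hdich : ∀ s ∈ SS D.M, (∀ j, s (N * j + r) = 0) ∨
      ∃ δ : ℝ, 0 < δ ∧ ∀ᶠ j in atTop, ‖s (N * j + r)‖ = δ) (G : MvPolynomial (Option ι) (oK K)) :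
    (∀ᶠ j in atTop, aeval (pt (D.u (N * j + r)) (D.z (N * j + r))) G = 0) ∨
    (∀ᶠ j in atTop, aeval (pt (D.u (N * j + r)) (D.z (N * j + r))) G ≠ 0) :=
  tt_dich D.u_le D.u_ne D.u_tend N r hN hdich
    (s := fun n => aeval (pt (D.u n) (D.z n)) G)
    (fun k => ev_pt_mem (TR D.M D.u_le k) (tr_const D.u_le) G (tt_u D.u_le k)
      (fun i => D.z_tt k i))

end Dat

end Pool.Agent.N137.SH
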