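import Pool.Agent.N137.SH.Cmp
import Pool.Agent.N137.SH.At

set_option autoImplicit false
set_option linter.style.haveILetI false
set_option linter.unusedSectionVars false

/-!
# The theorem
-/

namespace Pool.Agent.N137.SH

open MvPolynomial Filter Topology Pool.Agent.N137.DR Pool.Agent.N137.AO

theorem place_at' (k : Type) [Field k] [CharZero k] [Algebra k ℂ] {n : ℕ} (y : Fin n → ℂ)
    (hk : ∀ G : MvPolynomial (Fin n) k, aeval y G = 0 → constantCoeff G = 0) :
    ∃ (L : Type) (_ : Field L) (σ : L →+* ℂ) (c : k →+* L) (Y : Fin n → L)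
      (v : AbsoluteValue L ℝ), IsNonarchimedean v ∧ (∀ a, σ (c a) = algebraMap k ℂ a) ∧
      (∀ i, σ (Y i) = y i) ∧ (∀ a, a ≠ 0 → v (c a) = 1) ∧ ∀ i, v (Y i) < 1 := by
  classical
  by_cases hy : ∃ i, y i ≠ 0
  · exact place_at k y hy hk
  · push Not at hy
    refine ⟨k, inferInstance, algebraMap k ℂ, RingHom.id k, fun _ => 0, AbsoluteValue.trivial,
      ?_, fun a => rfl, fun i => ?_, fun a ha => ?_, fun i => ?_⟩
    · intro a b
      by_cases hab : a + b = 0
      · rw [hab, map_zero]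
        exact le_max_of_le_left (AbsoluteValue.nonneg _ _)
      · rw [AbsoluteValue.trivial_apply hab]
        by_cases ha : a = 0
        · have hb : b ≠ 0 := by
            rintro rfl
            exact hab (by rw [ha, add_zero])
          rw [AbsoluteValue.trivial_apply hb]
          exact le_max_right _ _
        · rw [AbsoluteValue.trivial_apply ha]
          exact le_max_left _ _
    · rw [map_zero, hy i]
    · exact AbsoluteValue.trivial_apply ha
    · rw [map_zero]
      exact one_pos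

/-- shifting a set of natural numbers -/
theorem ap_shift' (n₁ : ℕ) (Z : Set ℕ)
    (h : ∃ T : Finset (ℕ × ℕ), {n : ℕ | n + n₁ ∈ Z} = {n : ℕ | ∃ t ∈ T, ∃ k : ℕ, n = t.1 + t.2 * k}) :
    ∃ T : Finset (ℕ × ℕ), Z = {n : ℕ | ∃ t ∈ T, ∃ k : ℕ, n = t.1 + t.2 * k} := by
  classical
  obtain ⟨T, hTZ⟩ := h
  refine ⟨((Finset.range n₁).filter (· ∈ Z)).image (fun z => (z, 0)) ∪
    T.image (fun t => (t.1 + n₁, t.2)), ?_⟩
  ext n
  constructor
  · intro hn
    by_cases hlt : n < n₁
    · exact ⟨(n, 0), Finset.mem_union_left _ (Finset.mem_image.2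
        ⟨n, Finset.mem_filter.2 ⟨Finset.mem_range.2 hlt, hn⟩, rfl⟩), 0, by simp⟩
    · have h1 : n - n₁ ∈ {n : ℕ | n + n₁ ∈ Z} := by
        show n - n₁ + n₁ ∈ Z
        rwa [Nat.sub_add_cancel (by omega)]
      rw [hTZ] at h1
      obtain ⟨t, ht, k, hk⟩ := h1
      refine ⟨(t.1 + n₁, t.2), Finset.mem_union_right _ (Finset.mem_image.2 ⟨t, ht, rfl⟩), k, ?_⟩
      show n = t.1 + n₁ + t.2 * k
      omega
  · rintro ⟨t, ht, k, hk⟩
    rcases Finset.mem_union.1 ht with ht | ht
    · obtain ⟨z, hz, rfl⟩ := Finset.mem_image.1 ht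
      have h1 := (Finset.mem_filter.1 hz).2
      simp at hk
      rw [hk]
      exact h1
    · obtain ⟨t', ht', rfl⟩ := Finset.mem_image.1 ht
      have h1 : t'.1 + t'.2 * k ∈ {n : ℕ | n + n₁ ∈ Z} := by
        rw [hTZ]
        exact ⟨t', ht', k, rfl⟩
      have h2 : n = t'.1 + t'.2 * k + n₁ := by
        have : n = t'.1 + n₁ + t'.2 * k := hk
        omega
      rw [h2]
      exact h1

open Cardinal in
/-- **The theorem for periodic points with `F^M(p) = p`, over the field of a place.** -/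
theorem main0 {k : Type} [Field k] [CharZero k] [IsAlgClosed k] {m : ℕ}
    {L' : Type} [Field L'] (σ : L' →+* ℂ) (cc : k →+* L') (v : AbsoluteValue L' ℝ)
    (hv : IsNonarchimedean v) (hvc : ∀ a, a ≠ 0 → v (cc a) = 1)
    (F : Fin m → MvPolynomial (Fin m) k) (L h : MvPolynomial (Fin m) k) {D : ℕ} (hD : 2 ≤ D)
    (hL : bind₁ F L = L ^ D * h) (p : Fin m → k) (M : ℕ) (hM : 1 ≤ M)
    (hper : (ev F)^[M] p = p) (hLp : eval p L = 0)
    (hhp : ∀ n, eval ((ev F)^[n] p) h ≠ 0)
    (hinj : ∀ n v, dd F ((ev F)^[n] p) v = 0 → dl1 L ((ev F)^[n] p) v = 0 → v = 0)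
    (X0 : Fin m → L') (hX0 : ∀ i, v (X0 i - cc (p i)) < 1)
    (V : Set (MvPolynomial (Fin m) ℂ)) :
    ∃ T : Finset (ℕ × ℕ),
      {n : ℕ | ∀ g ∈ V, eval (fun i => σ ((ev fun i => map cc (F i))^[n] X0 i)) g = 0} =
      {n | ∃ t ∈ T, ∃ k : ℕ, n = t.1 + t.2 * k} := by
  classical
  haveI hU := ultraL v hv
  let κ : k →+* v.Completion := (embL v).comp cc
  have hκ : ∀ c, c ≠ 0 → ‖κ c‖ = 1 := by
    intro c hc
    show ‖embL v (cc c)‖ = 1
    rw [norm_embL, hvc c hc]
  have hcard : #L' ≤ 𝔠 := by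
    rw [← Cardinal.mk_complex]
    exact Cardinal.mk_le_of_injective σ.injective
  obtain ⟨Ψ, hΨ⟩ := exists_hom v.Completion (fun n hn0 => by
    rw [← map_natCast κ n]
    exact hκ _ (Nat.cast_ne_zero.2 hn0)) (cardL v hcard)
  let x : ℕ → Fin m → L' := fun n => (ev fun i => map cc (F i))^[n] X0
  let XX : ℕ → Fin m → v.Completion := fun n i => embL v (x (M * n) i)
  have hxadd : ∀ a b : ℕ, x (a + b) = fun i => eval (x a) (map cc (itP F b i)) := by
    intro a b
    funext i
    show (ev fun i => map cc (F i))^[a + b] X0 i = _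
    rw [add_comm a b, Function.iterate_add_apply, ← itP_map, eval_itP]
  have hXX : ∀ n i, XX (n + 1) i = eval (XX n) (map κ (itP F M i)) := by
    intro n i
    show embL v (x (M * (n + 1)) i) = _
    rw [mul_add, mul_one, hxadd]
    have h1 : map κ (itP F M i) = map (embL v) (map cc (itP F M i)) := by
      rw [MvPolynomial.map_map]
    rw [h1]
    exact (Pool.Agent.W600.DM.eval_hom (embL v) (x (M * n)) _).symm
  have hfix : ∀ i, eval p (itP F M i) = p i := fun i => by rw [eval_itP, hper]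
  have hDM : 2 ≤ D ^ M := hD.trans (Nat.le_self_pow (by omega) D)
  obtain ⟨N, hN, hloc⟩ := local_thm κ hκ (itP F M) L (hP F h D M) hDM (bind_hP F L h hL M) hfix
    hLp (hP_ne F h p hhp M) (inj_itP F L h hD hL p hLp hinj M) XX hXX (fun i => by
      show ‖embL v (x (M * 0) i) - embL v (cc (p i))‖ < 1
      rw [← map_sub, norm_embL]
      exact hX0 i) Ψ hΨ
  have hdich : ∀ (q : MvPolynomial (Fin m) L') (r : ℕ),
      (∀ᶠ j in atTop, eval (x (M * N * j + r)) q = 0) ∨
      (∀ᶠ j in atTop, eval (x (M * N * j + r)) q ≠ 0) := by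
    intro q r
    let q' : MvPolynomial (Fin m) L' := bind₁ (fun i => map cc (itP F (r % M) i)) q
    have hr : ∀ j, M * N * j + r = M * (N * j + r / M) + r % M := by
      intro j
      conv_lhs => rw [← Nat.div_add_mod r M]
      ring
    have key : ∀ j, eval (XX (N * j + r / M)) (map (embL v) q') = 0 ↔
        eval (x (M * N * j + r)) q = 0 := by
      intro j
      have h1 : eval (XX (N * j + r / M)) (map (embL v) q') =
          embL v (eval (x (M * (N * j + r / M))) q') :=
        Pool.Agent.W600.DM.eval_hom (embL v) (x (M * (N * j + r / M))) q'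
      rw [h1, map_eq_zero, hr, hxadd, eval_bind]
    rcases hloc (map (embL v) q') (r / M) with h1 | h1
    · left
      filter_upwards [h1] with j hj
      exact (key j).1 hj
    · right
      filter_upwards [h1] with j hj hj'
      exact hj ((key j).2 hj')
  have hMN : M * N ≠ 0 := Nat.mul_ne_zero (by omega) hN
  exact Pool.Agent.W600.DM.all_families σ (M := M * N) (Nat.one_le_iff_ne_zero.2 hMN)
    (x := x) (fun q => evPer_of (M * N) hMN _ fun r => hdich q r) V

/-- **The theorem for periodic points.** -/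
theorem main1 {k : Type} [Field k] [CharZero k] [IsAlgClosed k] [Algebra k ℂ] {m d e g D : ℕ}
    (hd : 2 ≤ d) (hD : 2 ≤ D) (F : Fin m → MvPolynomial (Fin m) k)
    (hF : ∀ i, (F i).IsHomogeneous d) (L h : MvPolynomial (Fin m) k) (hLe : L.IsHomogeneous e)
    (hhg : h.IsHomogeneous g) (hL : bind₁ F L = L ^ D * h) (P : Fin m → k) (hP0 : P ≠ 0)
    (M : ℕ) (hM : 1 ≤ M) (c : k) (hc : c ≠ 0) (hper : (ev F)^[M] P = fun i => c * P i)
    (hLp : eval P L = 0) (hhp : ∀ n, eval ((ev F)^[n] P) h ≠ 0)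
    (hinj : ∀ n v, dd F ((ev F)^[n] P) v = 0 → dl1 L ((ev F)^[n] P) v = 0 → v = 0)
    (α : Fin m → ℂ)
    (hα : ∀ (e : ℕ) (G : MvPolynomial (Fin m) k), G.IsHomogeneous e → aeval α G = 0 → eval P G = 0)
    (V : Set (MvPolynomial (Fin m) ℂ)) (hV : ∀ G ∈ V, ∃ e, G.IsHomogeneous e) :
    ∃ T : Finset (ℕ × ℕ),
      {n : ℕ | ∀ G ∈ V, eval ((ev fun i => map (algebraMap k ℂ) (F i))^[n] α) G = 0} =
      {n | ∃ t ∈ T, ∃ k : ℕ, n = t.1 + t.2 * k} := by
  classical
  -- normalization of the periodic point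
  obtain ⟨μ, hμ⟩ := IsAlgClosed.exists_pow_nat_eq c⁻¹ (n := d ^ M - 1) (by
    have : 2 ≤ d ^ M := hd.trans (Nat.le_self_pow (by omega) d)
    omega)
  have hdM : 2 ≤ d ^ M := hd.trans (Nat.le_self_pow (by omega) d)
  have hμ0 : μ ≠ 0 := by
    rintro rfl
    rw [zero_pow (by omega)] at hμ
    exact inv_ne_zero hc hμ.symm
  let p : Fin m → k := fun i => μ * P i
  have hiter : ∀ n, (ev F)^[n] p = fun i => μ ^ d ^ n * (ev F)^[n] P i := iter_smul F hF μ P
  have hpper : (ev F)^[M] p = p := by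
    rw [hiter, hper]
    funext i
    show μ ^ d ^ M * (c * P i) = μ * P i
    have h1 : μ ^ d ^ M = μ * μ ^ (d ^ M - 1) := by
      rw [← pow_succ']
      congr 1
      omega
    rw [h1, hμ]
    field_simp
  obtain ⟨i, hi⟩ : ∃ i, P i ≠ 0 := by
    by_contra h0
    push Not at h0
    exact hP0 (funext h0)
  have hαi : α i ≠ 0 := by
    intro h0
    have h1 := hα 1 (X i) (isHomogeneous_X k _) (by rw [aeval_X]; exact h0)
    rw [eval_X] at h1
    exact hi h1
  have hPi : algebraMap k ℂ (P i) ≠ 0 := (map_ne_zero _).2 hi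
  let b : Fin m → k := fun j => P j / P i
  let y : Fin m → ℂ := fun j => α j / α i - algebraMap k ℂ (b j)
  have hk : ∀ G : MvPolynomial (Fin m) k, aeval y G = 0 → constantCoeff G = 0 := by
    intro G hG
    have h1 := ker_le_of_forms (k := k) α (fun j => algebraMap k ℂ (P j)) i hαi hPi
      (fun e G hG hG0 => by
        have h2 := hα e G hG hG0
        have h3 : aeval (fun j => algebraMap k ℂ (P j)) G = algebraMap k ℂ (eval P G) := by
          have h4 := aeval_algebraMap_apply (A := k) ℂ P G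
          rw [aeval_eq_eval] at h4
          exact h4
        rw [h3, h2, map_zero])
      (bind₁ (fun j => X j - C (b j)) G) (by
        rw [aeval_bind₁]
        simpa [y] using hG)
    rw [aeval_bind₁] at h1
    have h4 : (fun j => aeval (fun j => algebraMap k ℂ (P j) / algebraMap k ℂ (P i))
        (X j - C (b j) : MvPolynomial (Fin m) k)) = fun _ => (0 : ℂ) := by
      funext j
      simp [b]
    rw [h4] at h1
    have h5 : aeval (fun _ : Fin m => (0 : ℂ)) G = algebraMap k ℂ (constantCoeff G) := by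
      rw [aeval_def, eval₂_eq', constantCoeff_eq]
      by_cases h0 : (0 : Fin m →₀ ℕ) ∈ G.support
      · rw [Finset.sum_eq_single 0]
        · simp
        · intro β _ hβ
          obtain ⟨l, hl⟩ := Finsupp.ne_iff.1 hβ
          rw [Finset.prod_eq_zero (Finset.mem_univ l) (zero_pow (by simpa using hl)), mul_zero]
        · intro h6
          exact absurd h0 h6
      · rw [Finset.sum_eq_zero]
        · rw [notMem_support_iff.1 h0, map_zero]
        · intro β hβ
          have hβ0 : β ≠ 0 := fun h6 => h0 (h6 ▸ hβ)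
          obtain ⟨l, hl⟩ := Finsupp.ne_iff.1 hβ0
          rw [Finset.prod_eq_zero (Finset.mem_univ l) (zero_pow (by simpa using hl)), mul_zero]
    rw [h5] at h1
    exact (map_eq_zero _).1 h1
  obtain ⟨L', _, σ, cc, Y, v, hv, hσc, hσY, hvc, hvY⟩ := place_at' k y hk
  let X0 : Fin m → L' := fun j => cc (p i) * Y j + cc (p j)
  set ρ : ℂ := algebraMap k ℂ (p i) / α i with hρ
  have hpi : p i ≠ 0 := mul_ne_zero hμ0 hi
  have hρ0 : ρ ≠ 0 := div_ne_zero ((map_ne_zero _).2 hpi) hαi
  have hσX : (fun j => σ (X0 j)) = fun j => ρ * α j := by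
    funext j
    show σ (cc (p i) * Y j + cc (p j)) = _
    rw [map_add, map_mul, hσc, hσc, hσY]
    have h1 : algebraMap k ℂ (p j) = algebraMap k ℂ (p i) * algebraMap k ℂ (b j) := by
      rw [← map_mul]
      congr 1
      show μ * P j = μ * P i * (P j / P i)
      field_simp
    rw [h1, hρ]
    show algebraMap k ℂ (p i) * (α j / α i - algebraMap k ℂ (b j)) + _ = _
    field_simp
    ring
  have hmain := main0 σ cc v hv hvc F L h hD hL p M hM hpper
    (by
      show eval (fun i => μ * P i) L = 0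
      rw [eval_smul_homog hLe, hLp, mul_zero])
    (fun n => by
      rw [hiter, eval_smul_homog hhg]
      exact mul_ne_zero (pow_ne_zero _ (pow_ne_zero _ hμ0)) (hhp n))
    (fun n w h1 h2 => by
      rw [hiter] at h1 h2
      refine hinj n w ?_ ?_
      · funext l
        have h3 := congrFun h1 l
        rw [dd_smul F hF] at h3
        exact (mul_eq_zero.1 h3).resolve_left (pow_ne_zero _ (pow_ne_zero _ hμ0))
      · rw [dl1_smul L hLe] at h2
        exact (mul_eq_zero.1 h2).resolve_left (pow_ne_zero _ (pow_ne_zero _ hμ0)))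
    X0
    (fun j => by
      show v (cc (p i) * Y j + cc (p j) - cc (p j)) < 1
      rw [add_sub_cancel_right, map_mul, hvc _ hpi, one_mul]
      exact hvY j) V
  obtain ⟨T, hT⟩ := hmain
  refine ⟨T, ?_⟩
  rw [← hT]
  have hmm : (fun i => map σ (map cc (F i))) = fun i => map (algebraMap k ℂ) (F i) := by
    funext l
    have h1 : σ.comp cc = algebraMap k ℂ := RingHom.ext hσc
    rw [MvPolynomial.map_map, h1]
  have horb : ∀ n, (fun l => σ ((ev fun i => map cc (F i))^[n] X0 l)) =
      fun l => ρ ^ d ^ n * (ev fun i => map (algebraMap k ℂ) (F i))^[n] α l := by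
    intro n
    rw [← ev_map_iter (fun i => map cc (F i)) σ n X0, hσX, hmm]
    exact iter_smul _ (fun l => (hF l).map _) ρ α n
  ext n
  simp only [Set.mem_ofPred_eq, horb]
  refine forall₂_congr fun G hG => ?_
  obtain ⟨e', he'⟩ := hV G hG
  rw [eval_smul_homog he']
  exact ⟨fun h1 => by rw [h1, mul_zero],
    fun h1 => (mul_eq_zero.1 h1).resolve_left (pow_ne_zero _ (pow_ne_zero _ hρ0))⟩

/-- **The theorem.** -/
theorem main2 {k : Type} [Field k] [CharZero k] [IsAlgClosed k] [Algebra k ℂ] {m d e g D : ℕ}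
    (hd : 2 ≤ d) (hD : 2 ≤ D) (F : Fin m → MvPolynomial (Fin m) k)
    (hF : ∀ i, (F i).IsHomogeneous d) (L h : MvPolynomial (Fin m) k) (hLe : L.IsHomogeneous e)
    (hhg : h.IsHomogeneous g) (hL : bind₁ F L = L ^ D * h) (P : Fin m → k)
    (hP0 : ∀ n, (ev F)^[n] P ≠ 0)
    (n₀ M : ℕ) (hM : 1 ≤ M) (c : k)
    (hper : (ev F)^[n₀ + M] P = fun i => c * (ev F)^[n₀] P i)
    (hLp : ∀ n, n₀ ≤ n → eval ((ev F)^[n] P) L = 0)
    (hhp : ∀ n, n₀ ≤ n → eval ((ev F)^[n] P) h ≠ 0)
    (hinj : ∀ n, n₀ ≤ n → ∀ v, dd F ((ev F)^[n] P) v = 0 → dl1 L ((ev F)^[n] P) v = 0 → v = 0)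
    (α : Fin m → ℂ)
    (hα : ∀ (e : ℕ) (G : MvPolynomial (Fin m) k), G.IsHomogeneous e → aeval α G = 0 →
      eval P G = 0) :
    (∀ n, (ev fun i => map (algebraMap k ℂ) (F i))^[n] α ≠ 0) ∧
    ∀ (V : Set (MvPolynomial (Fin m) ℂ)), (∀ G ∈ V, ∃ e, G.IsHomogeneous e) →
    ∃ T : Finset (ℕ × ℕ),
      {n : ℕ | ∀ G ∈ V, eval ((ev fun i => map (algebraMap k ℂ) (F i))^[n] α) G = 0} =
      {n | ∃ t ∈ T, ∃ k : ℕ, n = t.1 + t.2 * k} := by
  classical
  have hmapα : ∀ n i, aeval α (itP F n i) =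
      (ev fun i => map (algebraMap k ℂ) (F i))^[n] α i := by
    intro n i
    rw [← eval_itP, itP_map, eval_map]
    rfl
  refine ⟨fun n h0 => hP0 n ?_, fun V hV => ?_⟩
  · funext i
    rw [← eval_itP]
    exact hα _ _ (itP_homog F hF n i) (by rw [hmapα, h0]; rfl)
  · refine ap_shift' n₀ _ ?_
    have hadd : ∀ n, (ev F)^[n] ((ev F)^[n₀] P) = (ev F)^[n + n₀] P := fun n =>
      (Function.iterate_add_apply _ _ _ _).symm
    have hc : c ≠ 0 := by
      rintro rfl
      refine hP0 (n₀ + M) ?_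
      rw [hper]
      funext i
      simp
    have hmain := main1 hd hD F hF L h hLe hhg hL ((ev F)^[n₀] P) (hP0 n₀) M hM c hc
      (by rw [hadd, add_comm M n₀, hper]) (hLp n₀ le_rfl)
      (fun n => by rw [hadd]; exact hhp _ (by omega))
      (fun n => by rw [hadd]; exact hinj _ (by omega))
      ((ev fun i => map (algebraMap k ℂ) (F i))^[n₀] α)
      (fun e' G hG hG0 => by
        rw [← eval_bind_itP]
        refine hα _ _ (bind_homog F hF n₀ hG) ?_
        rw [aeval_bind₁]
        have h1 : (fun i => aeval α (itP F n₀ i)) =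
            (ev fun i => map (algebraMap k ℂ) (F i))^[n₀] α := funext (hmapα n₀)
        rw [h1]
        exact hG0) V hV
    obtain ⟨T, hT⟩ := hmain
    refine ⟨T, ?_⟩
    rw [← hT]
    ext n
    simp only [Set.mem_ofPred_eq]
    rw [← Function.iterate_add_apply]

end Pool.Agent.N137.SH
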