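import Pool.Agent.N137.SH.Exp
import Pool.Agent.N137.DR.Exps

set_option autoImplicit false
set_option linter.style.haveILetI false

/-!
# The local theorem over an algebraically closed field of constants
-/

namespace Pool.Agent.N137.SH

open MvPolynomial Filter Topology Pool.Agent.N137.AO Pool.Agent.N137.DR

section chain

variable {k : Type} [Field k] {m : ℕ}

/-- the chain rule -/
theorem pderiv_bind (f : Fin m → MvPolynomial (Fin m) k) (G : MvPolynomial (Fin m) k) (j : Fin m) :
    pderiv j (bind₁ f G) = ∑ i, bind₁ f (pderiv i G) * pderiv j (f i) := by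
  induction G using MvPolynomial.induction_on with
  | C a => simp
  | add p q hp hq =>
    rw [map_add, map_add, hp, hq, ← Finset.sum_add_distrib]
    refine Finset.sum_congr rfl fun i _ => ?_
    rw [map_add, map_add, add_mul]
  | mul_X p l hp =>
    rw [map_mul, bind₁_X_right, pderiv_mul, hp]
    have h1 : ∀ i, bind₁ f (pderiv i (p * X l)) * pderiv j (f i) =
        bind₁ f (pderiv i p) * pderiv j (f i) * f l +
          (if l = i then bind₁ f p * pderiv j (f i) else 0) := by
      intro i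
      rw [pderiv_mul, pderiv_X, map_add, map_mul, map_mul, bind₁_X_right]
      by_cases hil : l = i
      · subst hil
        simp
        ring
      · rw [if_neg hil, Pi.single_eq_of_ne hil]
        simp
        ring
    rw [Finset.sum_congr rfl fun i _ => h1 i, Finset.sum_add_distrib, Finset.sum_ite_eq,
      Finset.sum_mul]
    simp

/-- the differential of `G` at `p` -/
noncomputable def dd (G : Fin m → MvPolynomial (Fin m) k) (p v : Fin m → k) : Fin m → k :=
  fun i => ∑ j, eval p (pderiv j (G i)) * v j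

/-- the differential of the function `L` at `p` -/
noncomputable def dl1 (L : MvPolynomial (Fin m) k) (p v : Fin m → k) : k :=
  ∑ j, eval p (pderiv j L) * v j

theorem eval_bind {R : Type} [CommSemiring R] (p : Fin m → R) (f : Fin m → MvPolynomial (Fin m) R)
    (Q : MvPolynomial (Fin m) R) : eval p (bind₁ f Q) = eval (fun i => eval p (f i)) Q := by
  induction Q using MvPolynomial.induction_on with
  | C a => simp
  | add a b ha hb => rw [map_add, map_add, map_add, ha, hb]
  | mul_X a i ha => rw [map_mul, map_mul, map_mul, ha, bind₁_X_right, eval_X]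

theorem dl_dd {G : Fin m → MvPolynomial (Fin m) k} {L h : MvPolynomial (Fin m) k} {D : ℕ}
    (hD : 2 ≤ D) (hL : bind₁ G L = L ^ D * h) {p : Fin m → k} (hp : eval p L = 0)
    (v : Fin m → k) : dl1 L (fun i => eval p (G i)) (dd G p v) = 0 := by
  have h1 : ∀ j, ∑ i, eval (fun i => eval p (G i)) (pderiv i L) * eval p (pderiv j (G i)) = 0 := by
    intro j
    have h2 := congrArg (fun Q => eval p (pderiv j Q)) hL
    simp only [pderiv_bind, map_sum, map_mul, eval_bind] at h2
    rw [h2, pderiv_mul, map_add, map_mul, map_mul, Derivation.leibniz_pow, map_nsmul, smul_eq_mul,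
      map_mul, map_pow, map_pow, hp, zero_pow (by omega), zero_pow (by omega)]
    simp
  unfold dl1 dd
  simp only [Finset.mul_sum]
  rw [Finset.sum_comm]
  refine Finset.sum_eq_zero fun j _ => ?_
  have h2 : ∀ i, eval (fun i => eval p (G i)) (pderiv i L) * (eval p (pderiv j (G i)) * v j) =
      eval (fun i => eval p (G i)) (pderiv i L) * eval p (pderiv j (G i)) * v j := by
    intro i
    ring
  rw [Finset.sum_congr rfl fun i _ => h2 i, ← Finset.sum_mul, h1, zero_mul]

end chain

section loc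

variable {k K : Type} [Field k] [IsAlgClosed k] [NormedField K] [IsUltrametricDist K]
  [CompleteSpace K] (κ : k →+* K) (hκ : ∀ c, c ≠ 0 → ‖κ c‖ = 1)

include hκ in
theorem κ_le (c : k) : ‖κ c‖ ≤ 1 := by
  by_cases hc : c = 0
  · rw [hc, map_zero, norm_zero]
    exact zero_le_one
  · exact (hκ c hc).le

/-- the embedding in the ring of integers -/
def κO : k →+* oK K := κ.codRestrict (oK K) (κ_le κ hκ)

theorem κO_coe (c : k) : ((κO κ hκ c : oK K) : K) = κ c := rfl

variable {σ : Type}

theorem aeval_map_κ (G : MvPolynomial σ k) (x : σ → K) :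
    aeval x (map (κO κ hκ) G) = eval x (map κ G) := by
  rw [aeval_def, eval₂_map, eval_map]
  rfl

theorem eval_map_κ {m : ℕ} (G : MvPolynomial (Fin m) k) (p : Fin m → k) :
    eval (fun i => κ (p i)) (map κ G) = κ (eval p G) := by
  rw [eval_map, eval₂_comp]
  rfl

variable {m : ℕ} (G : Fin m → MvPolynomial (Fin m) k) (L h : MvPolynomial (Fin m) k) (w : Fin m → k)

/-- the modified map -/
noncomputable def PhiO (i : Fin m) : MvPolynomial (Option (Fin m)) (oK K) :=
  rename some (map (κO κ hκ) (G i)) +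
    (rename some (map (κO κ hκ) L) - X none) * C (κO κ hκ (w i))

theorem aeval_pt_rename (Q : MvPolynomial (Fin m) (oK K)) (a : K) (x : Fin m → K) :
    aeval (pt a x) (rename some Q) = aeval x Q := by
  rw [aeval_rename]
  rfl

theorem aeval_Phi (a : K) (x : Fin m → K) (i : Fin m) :
    aeval (pt a x) (PhiO κ hκ G L w i) =
      eval x (map κ (G i)) + (eval x (map κ L) - a) * κ (w i) := by
  rw [PhiO, map_add, map_mul, map_sub, aeval_pt_rename, aeval_pt_rename, aeval_map_κ,
    aeval_map_κ, aeval_X, aeval_C]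
  rfl

theorem pderiv_Phi (i j : Fin m) : pderiv (some j) (PhiO κ hκ G L w i) =
    rename some (map (κO κ hκ) (pderiv j (G i))) +
      rename some (map (κO κ hκ) (pderiv j L)) * C (κO κ hκ (w i)) := by
  have h1 : ∀ Q : MvPolynomial (Fin m) (oK K),
      pderiv (some j) (rename some Q) = rename some (pderiv j Q) :=
    fun Q => pderiv_rename (Option.some_injective _) _ _
  have h2 : pderiv (some j) (X none : MvPolynomial (Option (Fin m)) (oK K)) = 0 := by
    rw [pderiv_X]
    exact Pi.single_eq_of_ne (by simp) _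
  rw [PhiO, map_add, pderiv_mul, map_sub, h1, h1, h2, pderiv_C, pderiv_map, pderiv_map]
  ring

theorem dd_add (p v v' : Fin m → k) : dd G p (v + v') = dd G p v + dd G p v' := by
  funext i
  simp [dd, mul_add, Finset.sum_add_distrib]

theorem dl_comb (p : Fin m → k) (v w : Fin m → k) (c : k) :
    dl1 L p (v + c • w) = dl1 L p v + c * dl1 L p w := by
  simp only [dl1, Pi.add_apply, Pi.smul_apply, smul_eq_mul, mul_add, Finset.sum_add_distrib,
    Finset.mul_sum]
  congr 1
  refine Finset.sum_congr rfl fun j _ => by ring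

/-- the correction -/
theorem exists_w {D : ℕ} (hD : 2 ≤ D) (hL : bind₁ G L = L ^ D * h) {p : Fin m → k}
    (hfix : ∀ i, eval p (G i) = p i) (hLp : eval p L = 0)
    (hinj : ∀ v, dd G p v = 0 → dl1 L p v = 0 → v = 0) :
    ∃ w : Fin m → k, (Matrix.of fun i j => eval p (pderiv j (G i)) + eval p (pderiv j L) * w i :
      Matrix (Fin m) (Fin m) k).det ≠ 0 := by
  classical
  have hmul : ∀ w v : Fin m → k, (Matrix.of fun i j => eval p (pderiv j (G i)) +
      eval p (pderiv j L) * w i : Matrix (Fin m) (Fin m) k).mulVec v =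
      dd G p v + dl1 L p v • w := by
    intro w v
    funext i
    simp only [Matrix.mulVec, dotProduct, Matrix.of_apply, dd, dl1, Pi.add_apply, Pi.smul_apply,
      smul_eq_mul, add_mul, Finset.sum_add_distrib, Finset.sum_mul]
    congr 1
    refine Finset.sum_congr rfl fun j _ => by ring
  have hself : (fun i => eval p (G i)) = p := funext hfix
  by_cases hdl : ∃ j, eval p (pderiv j L) ≠ 0
  · obtain ⟨j, hj⟩ := hdl
    refine ⟨Pi.single j (eval p (pderiv j L))⁻¹, fun hdet => ?_⟩
    obtain ⟨v, hv0, hv⟩ := Matrix.exists_mulVec_eq_zero_iff.2 hdet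
    rw [hmul] at hv
    have h1 : dl1 L p (Pi.single j (eval p (pderiv j L))⁻¹) = 1 := by
      rw [dl1, Finset.sum_eq_single j]
      · rw [Pi.single_eq_same, mul_inv_cancel₀ hj]
      · intro i _ hij
        rw [Pi.single_eq_of_ne hij, mul_zero]
      · intro h
        exact absurd (Finset.mem_univ j) h
    have h2 := dl_dd hD hL hLp v
    rw [hself] at h2
    have h3 : dl1 L p (dd G p v + dl1 L p v • Pi.single j (eval p (pderiv j L))⁻¹) = 0 := by
      rw [hv]
      simp [dl1]
    rw [dl_comb, h2, h1, mul_one, zero_add] at h3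
    rw [h3, zero_smul, add_zero] at hv
    exact hv0 (hinj v hv h3)
  · push Not at hdl
    refine ⟨0, fun hdet => ?_⟩
    obtain ⟨v, hv0, hv⟩ := Matrix.exists_mulVec_eq_zero_iff.2 hdet
    rw [hmul, smul_zero, add_zero] at hv
    refine hv0 (hinj v hv ?_)
    rw [dl1]
    exact Finset.sum_eq_zero fun j _ => by rw [hdl j, zero_mul]

/-- clearing denominators -/
theorem exists_int (q : MvPolynomial (Fin m) K) : ∃ (c : K) (q' : MvPolynomial (Fin m) (oK K)),
    c ≠ 0 ∧ ∀ x : Fin m → K, aeval x q' = c * eval x q := by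
  classical
  obtain ⟨c, hc0, hc⟩ : ∃ c : K, c ≠ 0 ∧ ∀ β ∈ q.support, ‖c * coeff β q‖ ≤ 1 := by
    rcases q.support.eq_empty_or_nonempty with h | h
    · exact ⟨1, one_ne_zero, fun β hβ => by rw [h] at hβ; exact absurd hβ (Finset.notMem_empty _)⟩
    · obtain ⟨β₀, hβ₀, hmax⟩ := q.support.exists_max_image (fun β => ‖coeff β q‖) h
      have h0 : coeff β₀ q ≠ 0 := mem_support_iff.1 hβ₀
      refine ⟨(coeff β₀ q)⁻¹, inv_ne_zero h0, fun β hβ => ?_⟩
      rw [norm_mul, norm_inv, inv_mul_le_iff₀ (norm_pos_iff.2 h0), mul_one]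
      exact hmax β hβ
  refine ⟨c, ∑ β ∈ q.support.attach, monomial β.1 (⟨c * coeff β.1 q, hc β.1 β.2⟩ : oK K), hc0,
    fun x => ?_⟩
  rw [map_sum]
  have h1 : ∀ β : {β // β ∈ q.support}, aeval x (monomial β.1 (⟨c * coeff β.1 q, hc β.1 β.2⟩ :
      oK K)) = c * (coeff β.1 q * ∏ i, x i ^ β.1 i) := by
    intro β
    rw [aeval_monomial, Finsupp.prod_fintype _ _ (fun i => pow_zero _)]
    show (c * coeff β.1 q) * _ = _
    ring
  rw [Finset.sum_congr rfl fun β _ => h1 β, ← Finset.mul_sum,
    Finset.sum_attach q.support (fun β => coeff β q * ∏ i, x i ^ β i), eval_eq']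

include hκ in
/-- **The local theorem.** -/
theorem local_thm {D : ℕ} (hD : 2 ≤ D) (hL : bind₁ G L = L ^ D * h) {p : Fin m → k}
    (hfix : ∀ i, eval p (G i) = p i) (hLp : eval p L = 0) (hhp : eval p h ≠ 0)
    (hinj : ∀ v, dd G p v = 0 → dl1 L p v = 0 → v = 0) (X : ℕ → Fin m → K)
    (hX : ∀ n i, X (n + 1) i = eval (X n) (map κ (G i))) (hX0 : ∀ i, ‖X 0 i - κ (p i)‖ < 1)
    (Ψ : oK K →+* ℂ) (hΨ : ∀ x, Ψ x = 0 ↔ ‖(x : K)‖ < 1) :
    ∃ N : ℕ, N ≠ 0 ∧ ∀ (q : MvPolynomial (Fin m) K) (r : ℕ),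
      (∀ᶠ j in atTop, eval (X (N * j + r)) q = 0) ∨
      (∀ᶠ j in atTop, eval (X (N * j + r)) q ≠ 0) := by
  classical
  obtain ⟨w, hw⟩ := exists_w G L h hD hL hfix hLp hinj
  set A : Matrix (Fin m) (Fin m) k :=
    Matrix.of fun i j => eval p (pderiv j (G i)) + eval p (pderiv j L) * w i with hA
  -- the differential
  have hΛ : (Matrix.of fun i j => aeval (pt 0 (fun i => κ (p i)))
      (pderiv (some j) (PhiO κ hκ G L w i)) : Matrix (Fin m) (Fin m) K) = A.map κ := by
    ext i j
    rw [Matrix.of_apply, Matrix.map_apply, hA, Matrix.of_apply, pderiv_Phi, map_add, map_mul,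
      aeval_pt_rename, aeval_pt_rename, aeval_map_κ, aeval_map_κ, eval_map_κ, eval_map_κ,
      aeval_C, map_add, map_mul]
    rfl
  have hdet : ‖(A.map κ).det‖ = 1 := by
    have h1 : (A.map κ).det = κ A.det := (RingHom.map_det κ A).symm
    rw [h1]
    exact hκ _ hw
  set s : Multiset K := A.charpoly.roots.map κ with hs
  have hchar : (A.map κ).charpoly = pol s := by
    rw [Matrix.charpoly_map, hs, pol, Multiset.map_map]
    have h1 : A.charpoly = (A.charpoly.roots.map fun a => Polynomial.X - Polynomial.C a).prod :=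
      (IsAlgClosed.splits A.charpoly).eq_prod_roots_of_monic A.charpoly_monic
    conv_lhs => rw [h1]
    rw [Polynomial.map_multiset_prod, Multiset.map_map]
    congr 1
    refine Multiset.map_congr rfl fun x _ => ?_
    simp
  have hroot : ∀ a ∈ A.charpoly.roots, a ≠ 0 := by
    rintro a ha rfl
    have h1 := (Polynomial.mem_roots A.charpoly_monic.ne_zero).1 ha
    rw [Polynomial.IsRoot.def, Matrix.eval_charpoly] at h1
    simp only [map_zero, zero_sub, Matrix.det_neg] at h1
    rcases mul_eq_zero.1 h1 with h2 | h2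
    · exact pow_ne_zero _ (neg_ne_zero.2 one_ne_zero) h2
    · exact hw h2
  -- the groups
  set S : Set Kˣ := {g | (g : K) ∈ s} with hS
  have hSfin : S.Finite := by
    refine (s.toFinset.finite_toSet.preimage (Units.val_injective.injOn)).subset ?_
    intro g hg
    exact Multiset.mem_toFinset.2 hg
  let Γ : Subgroup Kˣ := Subgroup.closure S
  obtain ⟨N, hN, hexp⟩ := grp_exp Kˣ S hSfin (nearK K)
  let M : Submonoid K := Γ.toSubmonoid.map (Units.coeHom K)
  let M' : Submonoid K := (Γ.toSubmonoid.map (Units.coeHom K)).map (powMonoidHom N)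
  have hΓ1 : ∀ g ∈ Γ, ‖(g : K)‖ = 1 := by
    intro g hg
    induction hg using Subgroup.closure_induction with
    | mem g hg =>
      obtain ⟨a, ha, h1⟩ := Multiset.mem_map.1 (show (g : K) ∈ s from hg)
      rw [← h1]
      exact hκ a (hroot a ha)
    | one => simp
    | mul a b _ _ ha hb => rw [Units.val_mul, norm_mul, ha, hb, one_mul]
    | inv a _ ha => rw [Units.val_inv_eq_inv_val, norm_inv, ha, inv_one]
  have hsM : ∀ μ ∈ s, μ ∈ M := by
    intro μ hμ
    obtain ⟨a, ha, rfl⟩ := Multiset.mem_map.1 hμ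
    have h1 : κ a ≠ 0 := (map_ne_zero κ).2 (hroot a ha)
    exact ⟨Units.mk0 (κ a) h1, Subgroup.subset_closure hμ, rfl⟩
  have hdich : ∀ r : ℕ, ∀ e ∈ SS M, (∀ j, e (N * j + r) = 0) ∨
      ∃ δ : ℝ, 0 < δ ∧ ∀ᶠ j in atTop, ‖e (N * j + r)‖ = δ := by
    intro r e he
    refine ss_dich Ψ hΨ M M' N (fun μ hμ => ⟨μ, hμ, rfl⟩) ?_ ?_ he r
    · rintro _ ⟨_, ⟨g, hg, rfl⟩, rfl⟩
      show ‖(g : K) ^ N‖ = 1
      rw [norm_pow, hΓ1 g hg, one_pow]
    · rintro _ ⟨_, ⟨g, hg, rfl⟩, rfl⟩ _ ⟨_, ⟨g', hg', rfl⟩, rfl⟩ j hj hlt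
      have hlt' : ‖((g : K) ^ N / (g' : K) ^ N) ^ j - 1‖ < 1 := hlt
      show ‖(g : K) ^ N / (g' : K) ^ N - 1‖ < 1
      have e1 : ∀ n : ℕ, ‖((((g * g'⁻¹ : Kˣ) ^ n : Kˣ) : K)) - 1‖ = ‖((g : K) / g') ^ n - 1‖ := by
        intro n
        rw [Units.val_pow_eq_pow_val, Units.val_mul, Units.val_inv_eq_inv_val, div_eq_mul_inv]
      rw [← div_pow, ← pow_mul, ← e1] at hlt'
      rw [← div_pow, ← e1]
      exact hexp _ (Γ.mul_mem hg (Γ.inv_mem hg')) ⟨N * j, Nat.mul_ne_zero hN hj, hlt'⟩
  -- the common data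
  have hp1 : ∀ i, ‖κ (p i)‖ ≤ 1 := fun i => κ_le κ hκ _
  have hX01 : ∀ i, ‖X 0 i‖ ≤ 1 := by
    intro i
    have h1 : X 0 i = (X 0 i - κ (p i)) + κ (p i) := by ring
    rw [h1]
    exact ultra_add (hX0 i).le (hp1 i)
  have hu0 : ‖eval (X 0) (map κ L)‖ < 1 := by
    -- a bound
    obtain ⟨θ, hθ1, hθ0, hθ⟩ : ∃ θ : ℝ, θ < 1 ∧ 0 ≤ θ ∧ ∀ i, ‖X 0 i - κ (p i)‖ ≤ θ := by
      rcases isEmpty_or_nonempty (Fin m) with hm | hm
      · exact ⟨0, one_pos, le_rfl, fun i => isEmptyElim i⟩
      · obtain ⟨i₀, hi₀⟩ := Finite.exists_max (fun i => ‖X 0 i - κ (p i)‖)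
        exact ⟨_, hX0 i₀, norm_nonneg _, hi₀⟩
    have h1 := ev_lip (map (κO κ hκ) L) hX01 hp1 hθ0 hθ
    rw [aeval_map_κ, aeval_map_κ, eval_map_κ, hLp, map_zero, sub_zero] at h1
    exact h1.trans_lt hθ1
  obtain ⟨θ, hθ0, hθ1, hθu, hθz⟩ : ∃ θ : ℝ, 0 < θ ∧ θ < 1 ∧ ‖eval (X 0) (map κ L)‖ ≤ θ ∧
      ∀ i, ‖X 0 i - κ (p i)‖ ≤ θ := by
    have h1 : ∀ᶠ θ : ℝ in 𝓝[<] 1, ∀ i, ‖X 0 i - κ (p i)‖ ≤ θ := by
      rw [eventually_all]
      intro i
      exact (eventually_ge_nhds (hX0 i)).filter_mono nhdsWithin_le_nhds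
    have h2 : ∀ᶠ θ : ℝ in 𝓝[<] 1, ‖eval (X 0) (map κ L)‖ ≤ θ :=
      (eventually_ge_nhds hu0).filter_mono nhdsWithin_le_nhds
    have h3 : ∀ᶠ θ : ℝ in 𝓝[<] 1, θ < 1 := self_mem_nhdsWithin
    have h4 : ∀ᶠ θ : ℝ in 𝓝[<] 1, 0 < θ :=
      (eventually_gt_nhds one_pos).filter_mono nhdsWithin_le_nhds
    obtain ⟨θ, ⟨⟨h5, h6⟩, h7⟩, h8⟩ := (((h1.and h2).and h3).and h4).exists
    exact ⟨θ, h8, h7, h6, h5⟩
  have hLX : ∀ n, eval (X (n + 1)) (map κ L) =
      eval (X n) (map κ L) ^ D * eval (X n) (map κ h) := by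
    intro n
    have h1 : X (n + 1) = fun i => eval (X n) (map κ (G i)) := funext (hX n)
    rw [h1, ← eval_bind, ← map_bind₁, hL, map_mul, map_pow, map_mul, map_pow]
  have hfixO : ∀ i, aeval (pt 0 (fun i => κ (p i))) (PhiO κ hκ G L w i) = κ (p i) := by
    intro i
    rw [aeval_Phi, eval_map_κ, eval_map_κ, hfix, hLp, map_zero]
    ring
  have hzO : ∀ n i, X (n + 1) i =
      aeval (pt (eval (X n) (map κ L)) (X n)) (PhiO κ hκ G L w i) := by
    intro n i
    rw [aeval_Phi, hX]
    ring
  have hint : ∀ (q : MvPolynomial (Fin m) K) (r : ℕ),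
      (∀ q' : MvPolynomial (Option (Fin m)) (oK K),
        (∀ᶠ j in atTop, aeval (pt (eval (X (N * j + r)) (map κ L)) (X (N * j + r))) q' = 0) ∨
        (∀ᶠ j in atTop, aeval (pt (eval (X (N * j + r)) (map κ L)) (X (N * j + r))) q' ≠ 0)) →
      (∀ᶠ j in atTop, eval (X (N * j + r)) q = 0) ∨
      (∀ᶠ j in atTop, eval (X (N * j + r)) q ≠ 0) := by
    intro q r hq
    obtain ⟨c, q', hc, hq'⟩ := exists_int q
    have h1 : ∀ n, aeval (pt (eval (X n) (map κ L)) (X n)) (rename some q') =
        c * eval (X n) q := by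
      intro n
      rw [aeval_pt_rename, hq']
    rcases hq (rename some q') with h2 | h2
    · left
      filter_upwards [h2] with j hj
      rw [h1] at hj
      exact (mul_eq_zero.1 hj).resolve_left hc
    · right
      filter_upwards [h2] with j hj hj'
      rw [h1, hj', mul_zero] at hj
      exact hj rfl
  refine ⟨N, hN, fun q r => hint q r fun q' => ?_⟩
  by_cases h0 : eval (X 0) (map κ L) = 0
  · -- the orbit lies in the hypersurface
    have hall : ∀ n, eval (X n) (map κ L) = 0 := by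
      intro n
      induction n with
      | zero => exact h0
      | succ n ih => rw [hLX, ih, zero_pow (by omega), zero_mul]
    let Rs : Res K (Fin m) :=
      { Φ := PhiO κ hκ G L w
        p := fun i => κ (p i)
        hp := hp1
        hfix := hfixO
        θ := θ
        θ_pos := hθ0
        θ_lt := hθ1
        M := M
        s := s
        hs := hsM
        hchar := by rw [hΛ]; exact hchar }
    have hz2 : ∀ n i, X (n + 1) i = aeval (pt 0 (X n)) (PhiO κ hκ G L w i) := by
      intro n i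
      rw [hzO, hall]
    have hnear : ∀ n i, ‖X n i - κ (p i)‖ ≤ θ := by
      intro n
      induction n with
      | zero => exact hθz
      | succ n ih =>
        intro i
        rw [hz2, ← hfixO i]
        refine ev_lip _ (pt_le zero_le (Rs.near_le ih)) (pt_le zero_le hp1) hθ0.le ?_
        intro o
        cases o with
        | none => simpa using hθ0.le
        | some i => exact ih i
    have hSS : ∀ i, (fun n => X n i) ∈ SS M := fun i => Rs.zt_ss hnear hz2 i
    have hq : (fun n => aeval (pt (eval (X n) (map κ L)) (X n)) q') ∈ SS M := by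
      have h1 := ev_pt_mem (SS M) ss_c q' (w := fun _ => 0) (ss_const zero_le) hSS
      have h2 : (fun n => aeval (pt (eval (X n) (map κ L)) (X n)) q') =
          fun n => aeval (pt 0 (X n)) q' := by
        funext n
        rw [hall]
      rw [h2]
      exact h1
    rcases hdich r _ hq with h1 | ⟨δ, hδ, h1⟩
    · exact Or.inl (Eventually.of_forall h1)
    · right
      filter_upwards [h1] with j hj hj'
      rw [hj', norm_zero] at hj
      exact hδ.ne hj
  · let Dt : Dat K (Fin m) :=
      { D := D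
        hD := hD
        h := rename some (map (κO κ hκ) h)
        Φ := PhiO κ hκ G L w
        u := fun n => eval (X n) (map κ L)
        z := X
        hu := fun n => by rw [aeval_pt_rename, aeval_map_κ]; exact hLX n
        hu0 := h0
        hz := hzO
        p := fun i => κ (p i)
        hp := hp1
        hfix := hfixO
        hh := by rw [aeval_pt_rename, aeval_map_κ, eval_map_κ]; exact hκ _ hhp
        θ := θ
        θ_pos := hθ0
        θ_lt := hθ1
        hθu := hθu
        hθz := hθz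
        hdet := by rw [hΛ]; exact hdet
        M := M
        s := s
        hs := hsM
        hchar := by rw [hΛ]; exact hchar }
    exact Dt.core N r hN (hdich r) q'

end loc

end Pool.Agent.N137.SH
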