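import Pool.Agent.N137.SH.Tk

set_option autoImplicit false
set_option linter.style.haveILetI false

/-!
# Orbits near a superattracting hypersurface
-/

namespace Pool.Agent.N137.SH

open MvPolynomial Filter Topology Pool.Agent.N137.AO

/-- a point with coordinates `a` and `x` -/
def pt {K ι : Type} (a : K) (x : ι → K) : Option ι → K := fun o => o.elim a x

@[simp] theorem pt_none {K ι : Type} (a : K) (x : ι → K) : pt a x none = a := rfl

@[simp] theorem pt_some {K ι : Type} (a : K) (x : ι → K) (i : ι) : pt a x (some i) = x i := rfl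

/-- the residual data -/
structure Res (K : Type) [NormedField K] [IsUltrametricDist K] (ι : Type) [Fintype ι]
    [DecidableEq ι] where
  Φ : ι → MvPolynomial (Option ι) (oK K)
  p : ι → K
  hp : ∀ i, ‖p i‖ ≤ 1
  hfix : ∀ i, aeval (pt 0 p) (Φ i) = p i
  θ : ℝ
  θ_pos : 0 < θ
  θ_lt : θ < 1
  M : Submonoid K
  s : Multiset K
  hs : ∀ μ ∈ s, μ ∈ M
  hchar : (Matrix.of fun i j => aeval (pt 0 p) (pderiv (some j) (Φ i)) :
    Matrix ι ι K).charpoly = pol s

/-- the data -/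
structure Dat (K : Type) [NormedField K] [IsUltrametricDist K] (ι : Type) [Fintype ι]
    [DecidableEq ι] extends Res K ι where
  D : ℕ
  hD : 2 ≤ D
  h : MvPolynomial (Option ι) (oK K)
  u : ℕ → K
  z : ℕ → ι → K
  hu : ∀ n, u (n + 1) = u n ^ D * aeval (pt (u n) (z n)) h
  hu0 : u 0 ≠ 0
  hz : ∀ n i, z (n + 1) i = aeval (pt (u n) (z n)) (Φ i)
  hh : ‖aeval (pt 0 p) h‖ = 1
  hθu : ‖u 0‖ ≤ θ
  hθz : ∀ i, ‖z 0 i - p i‖ ≤ θ
  hdet : ‖(Matrix.of fun i j => aeval (pt 0 p) (pderiv (some j) (Φ i)) : Matrix ι ι K).det‖ = 1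

theorem pt_le {K : Type} [NormedField K] {ι : Type} {a : K} {x : ι → K} (ha : ‖a‖ ≤ 1) (hx : ∀ i, ‖x i‖ ≤ 1) (o : Option ι) :
    ‖pt a x o‖ ≤ 1 := by
  cases o with
  | none => exact ha
  | some i => exact hx i

theorem zero_le {K : Type} [NormedField K] : ‖(0 : K)‖ ≤ 1 := by simp

namespace Res

variable {K : Type} [NormedField K] [IsUltrametricDist K] {ι : Type} [Fintype ι]
  [DecidableEq ι] (D : Res K ι)

/-- the differential along the hypersurface -/
noncomputable def Λ : Matrix ι ι K :=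
  Matrix.of fun i j => aeval (pt 0 D.p) (pderiv (some j) (D.Φ i))

theorem near_le {x : ι → K} (hx : ∀ i, ‖x i - D.p i‖ ≤ D.θ) (i : ι) : ‖x i‖ ≤ 1 := by
  have h1 : x i = (x i - D.p i) + D.p i := by ring
  rw [h1]
  exact ultra_add ((hx i).trans D.θ_lt.le) (D.hp i)

theorem Λ_le (i j : ι) : ‖D.Λ i j‖ ≤ 1 := ev_le _ (pt_le zero_le D.hp)

/-- the lemma on the linear approximation -/
theorem lin {x y : ι → K} (hx : ∀ i, ‖x i - D.p i‖ ≤ D.θ) (hy : ∀ i, ‖y i - D.p i‖ ≤ D.θ)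
    {C : ℝ} (hC : 0 ≤ C) (h : ∀ i, ‖x i - y i‖ ≤ C) (i : ι) :
    ‖aeval (pt 0 x) (D.Φ i) - aeval (pt 0 y) (D.Φ i) - D.Λ.mulVec (x - y) i‖ ≤ D.θ * C := by
  have hxy : ∀ i, ‖x i - y i‖ ≤ D.θ := by
    intro i
    have h1 : x i - y i = (x i - D.p i) - (y i - D.p i) := by ring
    rw [h1]
    exact ultra_sub (hx i) (hy i)
  -- replace `C` by the minimum
  have hmain : ∀ C : ℝ, 0 ≤ C → C ≤ D.θ → (∀ i, ‖x i - y i‖ ≤ C) →
      ‖aeval (pt 0 x) (D.Φ i) - aeval (pt 0 y) (D.Φ i) - D.Λ.mulVec (x - y) i‖ ≤ D.θ * C := by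
    intro C hC hCθ h
    have h1 := ev_taylor (D.Φ i) (x := pt 0 y) (h := pt 0 (x - y))
      (pt_le zero_le (D.near_le hy)) hC (hCθ.trans D.θ_lt.le) (by
        intro o
        cases o with
        | none => simpa using hC
        | some i => exact h i)
    have h2 : pt 0 y + pt 0 (x - y) = pt 0 x := by
      funext o
      cases o with
      | none => simp
      | some i => simp
    rw [h2, Fintype.sum_option] at h1
    simp only [pt_none, mul_zero, pt_some, zero_add] at h1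
    have h3 : aeval (pt 0 x) (D.Φ i) - aeval (pt 0 y) (D.Φ i) - D.Λ.mulVec (x - y) i =
        (aeval (pt 0 x) (D.Φ i) - aeval (pt 0 y) (D.Φ i) -
          ∑ j, aeval (pt 0 y) (pderiv (some j) (D.Φ i)) * (x - y) j) +
        ∑ j, (aeval (pt 0 y) (pderiv (some j) (D.Φ i)) - D.Λ i j) * (x - y) j := by
      rw [Matrix.mulVec, dotProduct]
      simp only [sub_mul, Finset.sum_sub_distrib]
      ring
    rw [h3]
    refine ultra_add ?_ ?_
    · refine h1.trans ?_
      rw [pow_two]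
      exact mul_le_mul_of_nonneg_right hCθ hC
    · refine IsUltrametricDist.norm_sum_le_of_forall_le_of_nonneg
        (mul_nonneg D.θ_pos.le hC) fun j _ => ?_
      rw [norm_mul]
      refine mul_le_mul ?_ (h j) (norm_nonneg _) D.θ_pos.le
      refine ev_lip _ (pt_le zero_le (D.near_le hy)) (pt_le zero_le D.hp) D.θ_pos.le ?_
      intro o
      cases o with
      | none => simpa using D.θ_pos.le
      | some i => exact hy i
  by_cases hCθ : C ≤ D.θ
  · exact hmain C hC hCθ h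
  · refine (hmain D.θ D.θ_pos.le le_rfl hxy).trans ?_
    exact mul_le_mul_of_nonneg_left (not_le.1 hCθ).le D.θ_pos.le

end Res

namespace Dat

variable {K : Type} [NormedField K] [IsUltrametricDist K] {ι : Type} [Fintype ι]
  [DecidableEq ι] (D : Dat K ι)

/-- the orbit stays near the fixed point -/
theorem near_uz (n : ℕ) : ‖D.u n‖ ≤ D.θ ^ (n + 1) ∧ ∀ i, ‖D.z n i - D.p i‖ ≤ D.θ := by
  induction n with
  | zero => exact ⟨by simpa using D.hθu, D.hθz⟩
  | succ n ih =>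
    have h1 : ‖D.u n‖ ≤ D.θ := by
      refine ih.1.trans ?_
      calc D.θ ^ (n + 1) ≤ D.θ ^ 1 := pow_le_pow_of_le_one D.θ_pos.le D.θ_lt.le (by omega)
        _ = D.θ := pow_one _
    have h2 : ∀ o, ‖pt (D.u n) (D.z n) o‖ ≤ 1 :=
      pt_le (h1.trans D.θ_lt.le) (D.near_le ih.2)
    refine ⟨?_, fun i => ?_⟩
    · rw [D.hu, norm_mul, norm_pow]
      obtain ⟨e, he⟩ := Nat.exists_eq_add_of_le D.hD
      calc ‖D.u n‖ ^ D.D * ‖aeval (pt (D.u n) (D.z n)) D.h‖ ≤ ‖D.u n‖ ^ D.D * 1 :=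
            mul_le_mul_of_nonneg_left (ev_le _ h2) (by positivity)
        _ = ‖D.u n‖ ^ 2 * ‖D.u n‖ ^ e := by rw [mul_one, he, pow_add]
        _ ≤ ‖D.u n‖ ^ 2 * 1 := mul_le_mul_of_nonneg_left
            (pow_le_one₀ (norm_nonneg _) (h1.trans D.θ_lt.le)) (by positivity)
        _ = ‖D.u n‖ * ‖D.u n‖ := by rw [mul_one, pow_two]
        _ ≤ D.θ ^ (n + 1) * D.θ := mul_le_mul ih.1 h1 (norm_nonneg _)
            (pow_nonneg D.θ_pos.le _)
        _ = D.θ ^ (n + 1 + 1) := (pow_succ _ _).symm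
    · rw [D.hz, ← D.hfix i]
      refine ev_lip _ h2 (pt_le zero_le D.hp) D.θ_pos.le ?_
      intro o
      cases o with
      | none => simpa using h1
      | some i => exact ih.2 i

theorem u_θ (n : ℕ) : ‖D.u n‖ ≤ D.θ ^ (n + 1) := (D.near_uz n).1

/-- the orbit stays near the fixed point -/
theorem z_near (n : ℕ) (i : ι) : ‖D.z n i - D.p i‖ ≤ D.θ := (D.near_uz n).2 i

theorem u_le_θ (n : ℕ) : ‖D.u n‖ ≤ D.θ := by
  refine (D.u_θ n).trans ?_
  calc D.θ ^ (n + 1) ≤ D.θ ^ 1 := pow_le_pow_of_le_one D.θ_pos.le D.θ_lt.le (by omega)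
    _ = D.θ := pow_one _

theorem u_le (n : ℕ) : ‖D.u n‖ ≤ 1 := (D.u_le_θ n).trans D.θ_lt.le

theorem h_norm (n : ℕ) : ‖aeval (pt (D.u n) (D.z n)) D.h‖ = 1 := by
  have h1 : ‖aeval (pt (D.u n) (D.z n)) D.h - aeval (pt 0 D.p) D.h‖ ≤ D.θ := by
    refine ev_lip _ (pt_le (D.u_le n) (D.near_le (D.z_near n))) (pt_le zero_le D.hp)
      D.θ_pos.le ?_
    intro o
    cases o with
    | none => simpa using D.u_le_θ n
    | some i => exact D.z_near n i
  have h2 : aeval (pt (D.u n) (D.z n)) D.h = aeval (pt 0 D.p) D.h +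
      (aeval (pt (D.u n) (D.z n)) D.h - aeval (pt 0 D.p) D.h) := by ring
  rw [h2, IsUltrametricDist.norm_add_eq_max_of_norm_ne_norm, D.hh]
  · exact max_eq_left (h1.trans D.θ_lt.le)
  · rw [D.hh]
    exact (h1.trans_lt D.θ_lt).ne'

theorem u_ne (n : ℕ) : D.u n ≠ 0 := by
  induction n with
  | zero => exact D.hu0
  | succ n ih =>
    rw [D.hu]
    refine mul_ne_zero (pow_ne_zero _ ih) ?_
    rw [← norm_pos_iff, D.h_norm]
    exact one_pos

theorem u_tend : Tendsto (fun n => ‖D.u n‖) atTop (𝓝 0) := by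
  have h1 : Tendsto (fun n : ℕ => D.θ ^ (n + 1)) atTop (𝓝 0) :=
    (tendsto_pow_atTop_nhds_zero_of_lt_one D.θ_pos.le D.θ_lt).comp (tendsto_add_atTop_nat 1)
  exact squeeze_zero (fun n => norm_nonneg _) D.u_θ h1

/-- the factor -/
noncomputable def H (n : ℕ) : K := D.u n ^ (D.D - 2) * aeval (pt (D.u n) (D.z n)) D.h

theorem u_H (n : ℕ) : D.u (n + 1) = D.u n ^ 2 * D.H n := by
  obtain ⟨e, he⟩ := Nat.exists_eq_add_of_le D.hD
  rw [D.hu, H, he, Nat.add_sub_cancel_left, pow_add]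
  ring

theorem H_le (n : ℕ) : ‖D.H n‖ ≤ 1 := by
  rw [H, norm_mul, D.h_norm, mul_one, norm_pow]
  exact pow_le_one₀ (norm_nonneg _) (D.u_le n)

theorem u_sq (n : ℕ) : ‖D.u (n + 1)‖ ≤ D.θ * ‖D.u n‖ := by
  rw [D.u_H, norm_mul, norm_pow, pow_two]
  calc ‖D.u n‖ * ‖D.u n‖ * ‖D.H n‖ ≤ ‖D.u n‖ * ‖D.u n‖ * 1 :=
        mul_le_mul_of_nonneg_left (D.H_le n) (by positivity)
    _ = ‖D.u n‖ * ‖D.u n‖ := mul_one _
    _ ≤ D.θ * ‖D.u n‖ := mul_le_mul_of_nonneg_right (D.u_le_θ n) (norm_nonneg _)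

/-- the inverse of the differential -/
noncomputable def Λi : Matrix ι ι K := (D.Λ.det)⁻¹ • D.Λ.adjugate

theorem det_ne : D.Λ.det ≠ 0 := by
  have h1 : ‖D.Λ.det‖ = 1 := D.hdet
  intro h0
  rw [h0, norm_zero] at h1
  exact zero_ne_one h1

theorem Λi_le (i j : ι) : ‖D.Λi i j‖ ≤ 1 := by
  have h1 : ‖D.Λ.det‖ = 1 := D.hdet
  rw [Λi, Matrix.smul_apply, smul_eq_mul, norm_mul, norm_inv, h1, inv_one, one_mul]
  exact adj_le _ D.Λ_le i j

theorem Λ_Λi (x : ι → K) : D.Λ.mulVec (D.Λi.mulVec x) = x := by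
  rw [Matrix.mulVec_mulVec, Λi, Matrix.mul_smul, Matrix.mul_adjugate, smul_smul,
    inv_mul_cancel₀ D.det_ne, one_smul, Matrix.one_mulVec]

/-- the iteration -/
noncomputable def T (δ : ℕ → ι → K) : ℕ → ι → K := fun n =>
  D.Λi.mulVec (δ (n + 1) + D.z (n + 1) - (fun i => aeval (pt 0 (D.z n + δ n)) (D.Φ i)) +
    D.Λ.mulVec (δ n))

theorem near_add {δ : ι → K} {n : ℕ} (hδ : ∀ i, ‖δ i‖ ≤ ‖D.u n‖) (i : ι) :
    ‖(D.z n + δ) i - D.p i‖ ≤ D.θ := by
  have h1 : (D.z n + δ) i - D.p i = (D.z n i - D.p i) + δ i := by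
    rw [Pi.add_apply]
    ring
  rw [h1]
  exact ultra_add (D.z_near n i) ((hδ i).trans (D.u_le_θ n))

theorem T_diff {δ δ' : ℕ → ι → K} (hδ : ∀ n i, ‖δ n i‖ ≤ ‖D.u n‖)
    (hδ' : ∀ n i, ‖δ' n i‖ ≤ ‖D.u n‖) {c : ℝ} (hc : 0 ≤ c)
    (h : ∀ n i, ‖δ n i - δ' n i‖ ≤ c * ‖D.u n‖) (n : ℕ) (i : ι) :
    ‖D.T δ n i - D.T δ' n i‖ ≤ D.θ * c * ‖D.u n‖ := by
  have h1 : D.T δ n i - D.T δ' n i = D.Λi.mulVec ((δ (n + 1) - δ' (n + 1)) -
      ((fun i => aeval (pt 0 (D.z n + δ n)) (D.Φ i)) -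
        (fun i => aeval (pt 0 (D.z n + δ' n)) (D.Φ i)) -
        D.Λ.mulVec ((D.z n + δ n) - (D.z n + δ' n)))) i := by
    have h2 : (δ (n + 1) - δ' (n + 1)) -
      ((fun i => aeval (pt 0 (D.z n + δ n)) (D.Φ i)) -
        (fun i => aeval (pt 0 (D.z n + δ' n)) (D.Φ i)) -
        D.Λ.mulVec ((D.z n + δ n) - (D.z n + δ' n))) =
      (δ (n + 1) + D.z (n + 1) - (fun i => aeval (pt 0 (D.z n + δ n)) (D.Φ i)) +
        D.Λ.mulVec (δ n)) -
      (δ' (n + 1) + D.z (n + 1) - (fun i => aeval (pt 0 (D.z n + δ' n)) (D.Φ i)) +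
        D.Λ.mulVec (δ' n)) := by
      rw [add_sub_add_left_eq_sub, Matrix.mulVec_sub]
      abel
    rw [h2, Matrix.mulVec_sub]
    rfl
  rw [h1]
  have hnn : 0 ≤ D.θ * c * ‖D.u n‖ := by
    have := D.θ_pos
    positivity
  refine mulVec_le D.Λi_le hnn (fun j => ?_) i
  rw [Pi.sub_apply]
  refine ultra_sub ?_ ?_
  · rw [Pi.sub_apply]
    refine (h (n + 1) j).trans ?_
    calc c * ‖D.u (n + 1)‖ ≤ c * (D.θ * ‖D.u n‖) := mul_le_mul_of_nonneg_left (D.u_sq n) hc
      _ = D.θ * c * ‖D.u n‖ := by ring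
  · have h2 := D.lin (D.near_add (hδ n)) (D.near_add (hδ' n)) (C := c * ‖D.u n‖) (by positivity)
      (fun i => by
        simp only [Pi.add_apply, add_sub_add_left_eq_sub]
        exact h n i) j
    simp only [Pi.sub_apply]
    refine h2.trans (le_of_eq ?_)
    ring

theorem T_zero (n : ℕ) (i : ι) : ‖D.T 0 n i‖ ≤ ‖D.u n‖ := by
  rw [T]
  refine mulVec_le D.Λi_le (norm_nonneg _) (fun j => ?_) i
  simp only [Pi.zero_apply, zero_add, add_zero, Pi.add_apply, Pi.sub_apply, Matrix.mulVec_zero]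
  rw [D.hz]
  refine ev_lip _ (pt_le (D.u_le n) (D.near_le (D.z_near n)))
    (pt_le zero_le (D.near_le (D.z_near n))) (norm_nonneg _) ?_
  intro o
  cases o with
  | none => simp
  | some i => simp

/-- the iterates -/
noncomputable def dl (j : ℕ) : ℕ → ι → K := (D.T)^[j] 0

theorem dl_succ (j : ℕ) : D.dl (j + 1) = D.T (D.dl j) := Function.iterate_succ_apply' _ _ _

theorem dl_diff (j : ℕ) : (∀ n i, ‖D.dl j n i‖ ≤ ‖D.u n‖) ∧
    ∀ n i, ‖D.dl (j + 1) n i - D.dl j n i‖ ≤ D.θ ^ j * ‖D.u n‖ := by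
  induction j with
  | zero =>
    have h0 : D.dl 0 = 0 := rfl
    refine ⟨fun n i => by rw [h0]; simp, fun n i => ?_⟩
    rw [dl_succ, h0, pow_zero, one_mul]
    simpa using D.T_zero n i
  | succ j ih =>
    have h1 : ∀ n i, ‖D.dl (j + 1) n i‖ ≤ ‖D.u n‖ := by
      intro n i
      have h2 : D.dl (j + 1) n i = (D.dl (j + 1) n i - D.dl j n i) + D.dl j n i := by ring
      rw [h2]
      refine ultra_add ((ih.2 n i).trans ?_) (ih.1 n i)
      exact mul_le_of_le_one_left (norm_nonneg _) (pow_le_one₀ D.θ_pos.le D.θ_lt.le)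
    refine ⟨h1, fun n i => ?_⟩
    rw [dl_succ D (j + 1), pow_succ']
    have h3 := D.T_diff h1 ih.1 (pow_nonneg D.θ_pos.le j) ih.2 n i
    rw [← dl_succ D j] at h3
    exact h3

theorem cont_ev (i : ι) (o : Option ι → K) (G : MvPolynomial (Option ι) (oK K)) :
    Continuous fun x : Option ι → K => aeval x G := by
  have h1 : (fun x : Option ι → K => aeval x G) =
      fun x => eval x (map (oK K).subtype G) := by
    funext x
    rw [eval_map]
    rfl
  rw [h1]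
  exact MvPolynomial.continuous_eval _

variable [CompleteSpace K]

/-- **the residual orbit** -/
theorem exists_zt : ∃ zt : ℕ → ι → K, (∀ n i, ‖zt n i - D.z n i‖ ≤ ‖D.u n‖) ∧
    ∀ n i, zt (n + 1) i = aeval (pt 0 (zt n)) (D.Φ i) := by
  have hlim : ∀ n i, ∃ y, Tendsto (fun j => D.dl j n i) atTop (𝓝 y) := by
    intro n i
    refine cauchySeq_tendsto_of_complete (cauchySeq_of_le_geometric D.θ (‖D.u n‖) D.θ_lt ?_)
    intro j
    rw [dist_comm, dist_eq_norm]
    refine ((D.dl_diff j).2 n i).trans (le_of_eq (mul_comm _ _))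
  choose δ hδ using hlim
  have hδv : ∀ n, Tendsto (fun j => D.dl j n) atTop (𝓝 (δ n)) := fun n =>
    tendsto_pi_nhds.2 (hδ n)
  have hle : ∀ n i, ‖δ n i‖ ≤ ‖D.u n‖ := fun n i =>
    le_of_tendsto' (hδ n i).norm fun j => (D.dl_diff j).1 n i
  have hcΛ : Continuous fun x : ι → K => D.Λ.mulVec x := continuous_const.matrix_mulVec continuous_id
  have hcΛi : Continuous fun x : ι → K => D.Λi.mulVec x :=
    continuous_const.matrix_mulVec continuous_id
  have hcpt : Continuous fun x : ι → K => pt (0 : K) x := by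
    refine continuous_pi fun o => ?_
    cases o with
    | none => exact continuous_const
    | some i => exact continuous_apply i
  have hfix : ∀ n, D.T δ n = δ n := by
    intro n
    have h1 : Tendsto (fun j => D.dl (j + 1) n) atTop (𝓝 (δ n)) :=
      (hδv n).comp (tendsto_add_atTop_nat 1)
    have h2 : Tendsto (fun j => D.dl (j + 1) n) atTop (𝓝 (D.T δ n)) := by
      have h3 : ∀ j, D.dl (j + 1) n = D.T (D.dl j) n := fun j => by rw [dl_succ]
      simp only [h3, T]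
      have h4 : Tendsto (fun j => (fun i => aeval (pt 0 (D.z n + D.dl j n)) (D.Φ i))) atTop
          (𝓝 (fun i => aeval (pt 0 (D.z n + δ n)) (D.Φ i))) := by
        refine tendsto_pi_nhds.2 fun i => ?_
        have h5 : Continuous fun x : ι → K => aeval (pt (0 : K) (D.z n + x)) (D.Φ i) :=
          (cont_ev i (pt 0 D.p) (D.Φ i)).comp (hcpt.comp (continuous_const.add continuous_id))
        exact (h5.tendsto _).comp (hδv n)
      refine (hcΛi.tendsto _).comp ?_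
      exact ((((hδv (n + 1)).add tendsto_const_nhds).sub h4).add
        ((hcΛ.tendsto _).comp (hδv n)))
    exact tendsto_nhds_unique h2 h1
  refine ⟨fun n => D.z n + δ n, fun n i => ?_, fun n i => ?_⟩
  · show ‖(D.z n i + δ n i) - D.z n i‖ ≤ ‖D.u n‖
    rw [add_sub_cancel_left]
    exact hle n i
  · have h1 := congrArg (fun x => D.Λ.mulVec x) (hfix n)
    simp only [T] at h1
    rw [Λ_Λi] at h1
    have h2 := congrFun h1 i
    simp only [Pi.add_apply, Pi.sub_apply] at h2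
    simp only [Pi.add_apply]
    linear_combination h2

end Dat

end Pool.Agent.N137.SH
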