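import Pool.Agent.N137.SH.Ss

set_option autoImplicit false
set_option linter.style.haveILetI false

/-!
# Polynomials with integral coefficients
-/

namespace Pool.Agent.N137.SH

open MvPolynomial Pool.Agent.N137.AO

section poly

variable {K : Type} [NormedField K] [IsUltrametricDist K] {σ : Type}

theorem ev_le (G : MvPolynomial σ (oK K)) {x : σ → K} (hx : ∀ i, ‖x i‖ ≤ 1) :
    ‖aeval x G‖ ≤ 1 := by
  induction G using MvPolynomial.induction_on with
  | C a => rw [aeval_C]; exact a.2
  | add p q hp hq => rw [map_add]; exact ultra_add hp hq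
  | mul_X p i hp =>
    rw [map_mul, aeval_X, norm_mul]
    exact mul_le_one₀ hp (norm_nonneg _) (hx i)

theorem ev_lip (G : MvPolynomial σ (oK K)) {x y : σ → K} (hx : ∀ i, ‖x i‖ ≤ 1)
    (hy : ∀ i, ‖y i‖ ≤ 1) {C : ℝ} (hC : 0 ≤ C) (h : ∀ i, ‖x i - y i‖ ≤ C) :
    ‖aeval x G - aeval y G‖ ≤ C := by
  induction G using MvPolynomial.induction_on with
  | C a => rw [aeval_C, aeval_C, sub_self, norm_zero]; exact hC
  | add p q hp hq =>
    have h1 : aeval x (p + q) - aeval y (p + q) =
        (aeval x p - aeval y p) + (aeval x q - aeval y q) := by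
      rw [map_add, map_add]
      ring
    rw [h1]
    exact ultra_add hp hq
  | mul_X p i hp =>
    have h1 : aeval x (p * X i) - aeval y (p * X i) =
        (aeval x p - aeval y p) * x i + aeval y p * (x i - y i) := by
      rw [map_mul, map_mul, aeval_X, aeval_X]
      ring
    rw [h1]
    refine ultra_add ?_ ?_
    · rw [norm_mul]
      exact (mul_le_of_le_one_right (norm_nonneg _) (hx i)).trans hp
    · rw [norm_mul]
      exact (mul_le_of_le_one_left (norm_nonneg _) (ev_le p hy)).trans (h i)

theorem ev_taylor [Fintype σ] (G : MvPolynomial σ (oK K)) {x h : σ → K}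
    (hx : ∀ i, ‖x i‖ ≤ 1) {C : ℝ} (hC : 0 ≤ C) (hC1 : C ≤ 1) (hh : ∀ i, ‖h i‖ ≤ C) :
    ‖aeval (x + h) G - aeval x G - ∑ i, aeval x (pderiv i G) * h i‖ ≤ C ^ 2 := by
  classical
  have hxh : ∀ i, ‖(x + h) i‖ ≤ 1 := fun i => ultra_add (hx i) ((hh i).trans hC1)
  induction G using MvPolynomial.induction_on with
  | C a =>
    simp only [aeval_C, sub_self, pderiv_C, map_zero, zero_mul, Finset.sum_const_zero, norm_zero]
    positivity
  | add p q hp hq =>
    have h1 : aeval (x + h) (p + q) - aeval x (p + q) -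
        ∑ i, aeval x (pderiv i (p + q)) * h i =
        (aeval (x + h) p - aeval x p - ∑ i, aeval x (pderiv i p) * h i) +
        (aeval (x + h) q - aeval x q - ∑ i, aeval x (pderiv i q) * h i) := by
      simp only [map_add, add_mul, Finset.sum_add_distrib]
      ring
    rw [h1]
    exact ultra_add hp hq
  | mul_X p j hp =>
    have h2 : ∑ i, aeval x (pderiv i (p * X j)) * h i =
        (∑ i, aeval x (pderiv i p) * h i) * x j + aeval x p * h j := by
      have h3 : ∀ i, aeval x (pderiv i (p * X j)) * h i =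
          aeval x (pderiv i p) * h i * x j + (if j = i then aeval x p * h i else 0) := by
        intro i
        rw [pderiv_mul, pderiv_X, map_add, map_mul, map_mul, aeval_X]
        by_cases hij : j = i
        · subst hij
          simp
          ring
        · rw [if_neg hij, Pi.single_eq_of_ne hij]
          simp
          ring
      rw [Finset.sum_congr rfl fun i _ => h3 i, Finset.sum_add_distrib, Finset.sum_ite_eq,
        Finset.sum_mul]
      simp
    have h1 : aeval (x + h) (p * X j) - aeval x (p * X j) -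
        ∑ i, aeval x (pderiv i (p * X j)) * h i =
        (aeval (x + h) p - aeval x p - ∑ i, aeval x (pderiv i p) * h i) * x j +
        (aeval (x + h) p - aeval x p) * h j := by
      rw [h2, map_mul, map_mul, aeval_X, aeval_X, Pi.add_apply]
      ring
    rw [h1]
    refine ultra_add ?_ ?_
    · rw [norm_mul]
      exact (mul_le_of_le_one_right (norm_nonneg _) (hx j)).trans hp
    · rw [norm_mul, pow_two]
      refine mul_le_mul (ev_lip p hxh hx hC fun i => ?_) (hh j) (norm_nonneg _) hC
      rw [Pi.add_apply, add_sub_cancel_left]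
      exact hh i

/-- evaluation of polynomials in rings of sequences -/
theorem ev_mem (A : Subring (ℕ → K)) (hA : ∀ c : K, ‖c‖ ≤ 1 → (fun _ => c) ∈ A)
    (G : MvPolynomial σ (oK K)) (x : σ → ℕ → K) (hx : ∀ i, x i ∈ A) :
    (fun n => aeval (fun i => x i n) G) ∈ A := by
  induction G using MvPolynomial.induction_on with
  | C a =>
    have h1 : (fun n => aeval (fun i => x i n) (C a : MvPolynomial σ (oK K))) =
        fun _ => (a : K) := by
      funext n
      rw [aeval_C]
      rfl
    rw [h1]
    exact hA a a.2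
  | add p q hp hq =>
    have h1 : (fun n => aeval (fun i => x i n) (p + q)) =
        (fun n => aeval (fun i => x i n) p) + fun n => aeval (fun i => x i n) q := by
      funext n
      rw [map_add]
      rfl
    rw [h1]
    exact A.add_mem hp hq
  | mul_X p i hp =>
    have h1 : (fun n => aeval (fun i => x i n) (p * X i)) =
        (fun n => aeval (fun i => x i n) p) * x i := by
      funext n
      rw [map_mul, aeval_X]
      rfl
    rw [h1]
    exact A.mul_mem hp (hx i)

theorem prod_lip {ι : Type} (s : Finset ι) (a b : ι → K) (ha : ∀ i, ‖a i‖ ≤ 1)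
    (hb : ∀ i, ‖b i‖ ≤ 1) {C : ℝ} (hC : 0 ≤ C) (h : ∀ i, ‖a i - b i‖ ≤ C) :
    ‖∏ i ∈ s, a i - ∏ i ∈ s, b i‖ ≤ C := by
  classical
  induction s using Finset.induction_on with
  | empty => simpa using hC
  | insert i s hi ih =>
    rw [Finset.prod_insert hi, Finset.prod_insert hi]
    have h1 : a i * ∏ j ∈ s, a j - b i * ∏ j ∈ s, b j =
        (a i - b i) * ∏ j ∈ s, a j + b i * (∏ j ∈ s, a j - ∏ j ∈ s, b j) := by ring
    rw [h1]
    have h2 : ‖∏ j ∈ s, a j‖ ≤ 1 := by
      rw [norm_prod]
      exact Finset.prod_le_one (fun _ _ => norm_nonneg _) fun j _ => ha j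
    refine ultra_add ?_ ?_
    · rw [norm_mul]
      exact (mul_le_of_le_one_right (norm_nonneg _) h2).trans (h i)
    · rw [norm_mul]
      exact (mul_le_of_le_one_left (norm_nonneg _) (hb i)).trans ih

theorem det_lip {ι : Type} [Fintype ι] [DecidableEq ι] (A B : Matrix ι ι K)
    (hA : ∀ i j, ‖A i j‖ ≤ 1) (hB : ∀ i j, ‖B i j‖ ≤ 1) {C : ℝ} (hC : 0 ≤ C)
    (h : ∀ i j, ‖A i j - B i j‖ ≤ C) : ‖A.det - B.det‖ ≤ C := by
  rw [Matrix.det_apply, Matrix.det_apply, ← Finset.sum_sub_distrib]
  refine IsUltrametricDist.norm_sum_le_of_forall_le_of_nonneg hC fun π _ => ?_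
  rw [← smul_sub, norm_units_zsmul]
  exact prod_lip _ _ _ (fun i => hA _ _) (fun i => hB _ _) hC fun i => h _ _

theorem det_le {ι : Type} [Fintype ι] [DecidableEq ι] (A : Matrix ι ι K)
    (hA : ∀ i j, ‖A i j‖ ≤ 1) : ‖A.det‖ ≤ 1 := by
  rw [Matrix.det_apply]
  refine IsUltrametricDist.norm_sum_le_of_forall_le_of_nonneg zero_le_one fun π _ => ?_
  rw [norm_units_zsmul, norm_prod]
  exact Finset.prod_le_one (fun _ _ => norm_nonneg _) fun j _ => hA _ _

theorem adj_le {ι : Type} [Fintype ι] [DecidableEq ι] (A : Matrix ι ι K)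
    (hA : ∀ i j, ‖A i j‖ ≤ 1) (i j : ι) : ‖A.adjugate i j‖ ≤ 1 := by
  rw [Matrix.adjugate_apply]
  refine det_le _ fun k l => ?_
  rw [Matrix.updateRow_apply]
  split_ifs with h
  · by_cases hl : l = i
    · subst hl
      simp
    · rw [Pi.single_eq_of_ne hl]
      simp
  · exact hA k l

end poly

end Pool.Agent.N137.SH
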