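import Pool.Agent.N137.SH.Cf

set_option autoImplicit false
set_option linter.style.haveILetI false

/-!
# Uniform limits of linear recurrence sequences
-/

namespace Pool.Agent.N137.SH

open Polynomial Filter Topology Pool.Agent.N137.AO

section strong

variable {K : Type} [NormedField K] [IsUltrametricDist K]

theorem strongB (Ψ : oK K →+* ℂ) (hΨ : ∀ x, Ψ x = 0 ↔ ‖(x : K)‖ < 1) (R : Set K)
    (hR : ∀ a ∈ R, ∀ b ∈ R, ‖a‖ = ‖b‖ → a ≠ 0 → ∀ j : ℕ, j ≠ 0 → ‖(a / b) ^ j - 1‖ < 1 →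
      ‖a / b - 1‖ < 1) (t : Multiset K) (ht : ∀ μ ∈ t, μ ∈ R ∧ ‖μ‖ = 1) (e : ℕ → K)
    (he : aeval (sh : Module.End K (ℕ → K)) (pol t) e = 0) (he0 : e ≠ 0) :
    ∃ β : ℝ, 0 < β ∧ (∀ n, ‖e n‖ ≤ β) ∧ ∀ᶠ n in atTop, ‖e n‖ = β := by
  classical
  have hρ : (0 : ℝ) < 1 := one_pos
  set ρ : ℝ := 1 with hρ1
  rcases Multiset.empty_or_exists_mem t with h | ⟨μ₀, hμ₀⟩
  · rw [h, pol_zero, map_one, Module.End.one_apply] at he
    exact absurd he he0
  have hμ₀ρ : ‖μ₀‖ = ρ := (ht μ₀ hμ₀).2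
  have hμ₀0 : μ₀ ≠ 0 := by
    rw [← norm_pos_iff, hμ₀ρ]
    exact hρ
  -- the roots divided by `μ₀`
  have hone : ∀ μ ∈ t, ‖μ₀⁻¹ * μ‖ = 1 := by
    intro μ hμ
    rw [norm_mul, norm_inv, hμ₀ρ, (ht μ hμ).2, inv_mul_cancel₀ hρ.ne']
  let tO : Multiset (oK K) := t.pmap (fun μ h => ⟨μ₀⁻¹ * μ, h⟩)
    (fun μ hμ => mem_oK.2 (hone μ hμ).le)
  have htO : tO.map (fun x : oK K => (x : K)) = t.map (μ₀⁻¹ * ·) := by
    simp only [tO, Multiset.map_pmap]
    rw [Multiset.pmap_eq_map]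
  have htO' : ∀ x ∈ tO, ∃ μ ∈ t, (x : K) = μ₀⁻¹ * μ := by
    intro x hx
    obtain ⟨μ, hμ, rfl⟩ := Multiset.mem_pmap.1 hx
    exact ⟨μ, hμ, rfl⟩
  set P : (oK K)[X] := (tO.map fun x => X - C x).prod with hP
  have hPm : P.Monic := monic_multiset_prod_of_monic _ _ fun μ _ => monic_X_sub_C μ
  have hPmap : ∀ {L : Type} [Field L] (φ : oK K →+* L),
      P.map φ = pol (tO.map φ) := by
    intro L _ φ
    rw [hP, Polynomial.map_multiset_prod, Multiset.map_map, pol, Multiset.map_map]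
    congr 1
    refine Multiset.map_congr rfl fun x _ => ?_
    simp
  -- the scaled sequence
  set e₁ : ℕ → K := scl μ₀⁻¹ e with he₁
  have hk₁ : aeval (sh : Module.End K (ℕ → K)) (P.map (oK K).subtype) e₁ = 0 := by
    rw [hPmap]
    have h1 : tO.map (oK K).subtype = t.map (μ₀⁻¹ * ·) := htO
    rw [h1, he₁, scl_pol, he, map_zero, smul_zero]
  have he₁0 : e₁ ≠ 0 := by
    intro h
    apply he0
    funext n
    have h1 := congrFun h n
    rw [he₁, scl_apply] at h1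
    rcases mul_eq_zero.1 h1 with h2 | h2
    · exact absurd h2 (pow_ne_zero _ (inv_ne_zero hμ₀0))
    · exact h2
  set d := P.natDegree with hd
  have hdm : (P.map (oK K).subtype).natDegree = d := hPm.natDegree_map _
  have hrec : ∀ n, e₁ (n + d) = - ∑ i ∈ Finset.range d, (P.coeff i : K) * e₁ (n + i) := by
    intro n
    have h2 := aeval_sh_apply (P.map (oK K).subtype) (d + 1) (by rw [hdm]; exact Nat.lt_succ_self _)
      e₁ n
    rw [hk₁, Finset.sum_range_succ] at h2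
    have h3 : P.coeff d = 1 := hPm.coeff_natDegree
    simp only [Pi.zero_apply, coeff_map, h3, map_one, one_mul] at h2
    exact eq_neg_of_add_eq_zero_right h2.symm
  -- the maximum
  have hd0 : ∃ i < d, e₁ i ≠ 0 := by
    by_contra h
    push Not at h
    exact he₁0 (rec_zero (hPm.map _) hk₁ fun i hi => h i (by rw [hdm] at hi; exact hi))
  obtain ⟨i₀, hi₀, hi₀'⟩ := hd0
  obtain ⟨j₀, hj₀, hmax⟩ := (Finset.range d).exists_max_image (fun i => ‖e₁ i‖)
    ⟨i₀, Finset.mem_range.2 hi₀⟩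
  set β := e₁ j₀ with hβ
  have hβ0 : β ≠ 0 := by
    rw [← norm_pos_iff]
    exact (norm_pos_iff.2 hi₀').trans_le (hmax i₀ (Finset.mem_range.2 hi₀))
  have hle : ∀ n, ‖e₁ n‖ ≤ ‖β‖ := by
    intro n
    induction n using Nat.strong_induction_on with
    | _ n ih =>
      by_cases hn : n < d
      · exact hmax n (Finset.mem_range.2 hn)
      · obtain ⟨j, rfl⟩ := Nat.exists_eq_add_of_le (not_lt.1 hn)
        rw [add_comm, hrec, norm_neg]
        refine IsUltrametricDist.norm_sum_le_of_forall_le_of_nonneg (norm_nonneg _) fun i hi => ?_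
        rw [norm_mul]
        rw [Finset.mem_range] at hi
        exact (mul_le_of_le_one_left (norm_nonneg _) (P.coeff i).2).trans (ih _ (by omega))
  -- the integral sequence
  have hint : ∀ n, ‖e₁ n / β‖ ≤ 1 := by
    intro n
    rw [norm_div]
    exact (div_le_one (norm_pos_iff.2 hβ0)).2 (hle n)
  let w : ℕ → oK K := fun n => ⟨e₁ n / β, hint n⟩
  have hwrec : ∀ n, ∑ i ∈ Finset.range (d + 1), P.coeff i * w (n + i) = 0 := by
    intro n
    apply Subtype.ext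
    have h2 := aeval_sh_apply (P.map (oK K).subtype) (d + 1) (by rw [hdm]; exact Nat.lt_succ_self _)
      e₁ n
    rw [hk₁] at h2
    simp only [Pi.zero_apply, coeff_map, Subring.coe_subtype] at h2
    have h3 : ((∑ i ∈ Finset.range (d + 1), P.coeff i * w (n + i) : oK K) : K) =
        (∑ i ∈ Finset.range (d + 1), (P.coeff i : K) * e₁ (n + i)) / β := by
      rw [Finset.sum_div]
      simp only [w]
      push_cast
      exact Finset.sum_congr rfl fun i _ => by rw [mul_div_assoc]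
    rw [h3, ← h2, zero_div]
    rfl
  -- the reduction
  let E : ℕ → ℂ := fun n => Ψ (w n)
  have hE : aeval (sh : Module.End ℂ (ℕ → ℂ)) (pol (tO.map Ψ)) E = 0 := by
    rw [← hPmap]
    funext n
    rw [aeval_sh_apply _ (d + 1) (by rw [hPm.natDegree_map]; exact Nat.lt_succ_self _)]
    simp only [coeff_map, E, ← map_mul, ← map_sum, hwrec, map_zero, Pi.zero_apply]
  have hE0 : E ≠ 0 := by
    intro h
    have h1 := congrFun h j₀
    simp only [E, Pi.zero_apply, hΨ, w] at h1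
    rw [← hβ, div_self hβ0, norm_one] at h1
    exact lt_irrefl _ h1
  have hroot : ∀ x ∈ tO, ‖(x : K)‖ = 1 := by
    intro x hx
    obtain ⟨μ, hμ, h⟩ := htO' x hx
    rw [h]
    exact hone μ hμ
  have hev := nd_zero (tO.map Ψ) (by
    intro h
    obtain ⟨x, hx, hx0⟩ := Multiset.mem_map.1 h
    rw [hΨ, hroot x hx] at hx0
    exact lt_irrefl _ hx0) (by
    intro ν hν ν' hν' b hb hbb
    obtain ⟨x, hx, rfl⟩ := Multiset.mem_map.1 hν
    obtain ⟨y, hy, rfl⟩ := Multiset.mem_map.1 hν'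
    obtain ⟨μ, hμ, hxμ⟩ := htO' x hx
    obtain ⟨μ', hμ', hyμ⟩ := htO' y hy
    have hy0 : (y : K) ≠ 0 := by
      rw [← norm_pos_iff, hroot y hy]
      exact one_pos
    have hμ'0 : μ' ≠ 0 := by
      rintro rfl
      rw [mul_zero] at hyμ
      exact hy0 hyμ
    have hμ0 : μ ≠ 0 := by
      rw [← norm_pos_iff, (ht μ hμ).2]
      exact hρ
    have hq : (x : K) / y = μ / μ' := by
      rw [hxμ, hyμ]
      field_simp
    have h1 : ‖((x ^ b - y ^ b : oK K) : K)‖ < 1 := by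
      rw [← hΨ, map_sub, map_pow, map_pow, hbb, sub_self]
    have h2 : ‖(μ / μ') ^ b - 1‖ < 1 := by
      rw [← hq]
      have h3 : ((x : K) / y) ^ b - 1 = ((x ^ b - y ^ b : oK K) : K) / (y : K) ^ b := by
        push_cast
        rw [div_pow, sub_div, div_self (pow_ne_zero b hy0)]
      rw [h3, norm_div, norm_pow, hroot y hy, one_pow, div_one]
      exact h1
    have h4 := hR μ (ht μ hμ).1 μ' (ht μ' hμ').1 ((ht μ hμ).2.trans (ht μ' hμ').2.symm) hμ0 b hb h2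
    rw [← hq] at h4
    have h5 : (x : K) / y - 1 = ((x - y : oK K) : K) / (y : K) := by
      push_cast
      rw [sub_div, div_self hy0]
    rw [h5, norm_div, hroot y hy, div_one, ← hΨ, map_sub, sub_eq_zero] at h4
    exact h4) E hE hE0
  have hee : ∀ n, ‖e₁ n‖ = ‖e n‖ := by
    intro n
    rw [he₁, scl_apply, norm_mul, norm_pow, norm_inv, hμ₀ρ, hρ1, inv_one, one_pow, one_mul]
  refine ⟨‖β‖, norm_pos_iff.2 hβ0, fun n => by rw [← hee]; exact hle n, ?_⟩
  filter_upwards [hev] with n hn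
  have h1 : ¬ ‖((w n : oK K) : K)‖ < 1 := by
    rw [← hΨ]
    exact hn
  rw [not_lt] at h1
  have h2 : ‖e₁ n‖ = ‖β‖ := by
    refine le_antisymm (hle n) ?_
    have h3 : 1 ≤ ‖e₁ n / β‖ := h1
    rw [norm_div, one_le_div (norm_pos_iff.2 hβ0)] at h3
    exact h3
  rw [← hee]
  exact h2

end strong

section ss

variable {K : Type} [NormedField K] [IsUltrametricDist K]

theorem ultra_add {a b : K} {C : ℝ} (ha : ‖a‖ ≤ C) (hb : ‖b‖ ≤ C) : ‖a + b‖ ≤ C :=
  (IsUltrametricDist.norm_add_le_max a b).trans (max_le ha hb)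

theorem ultra_sub {a b : K} {C : ℝ} (ha : ‖a‖ ≤ C) (hb : ‖b‖ ≤ C) : ‖a - b‖ ≤ C := by
  rw [sub_eq_add_neg]
  exact ultra_add ha (by rwa [norm_neg])

/-- uniform limits of elements of `Cf M` -/
def Clo (M : Submonoid K) (s : ℕ → K) : Prop :=
  ∀ ε : ℝ, 0 < ε → ∃ e, Cf M e ∧ ∀ n, ‖s n - e n‖ ≤ ε

/-- uniform limits of elements of `Cf M` with values in the closed unit ball -/
def SS (M : Submonoid K) : Subring (ℕ → K) where
  carrier := {s | Clo M s ∧ ∀ n, ‖s n‖ ≤ 1}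
  mul_mem' := by
    rintro s s' ⟨hs, hs1⟩ ⟨hs', hs1'⟩
    refine ⟨fun ε hε => ?_, fun n => ?_⟩
    · obtain ⟨e, he, h⟩ := hs (min ε 1) (lt_min hε one_pos)
      obtain ⟨e', he', h'⟩ := hs' (min ε 1) (lt_min hε one_pos)
      refine ⟨e * e', cf_mul he he', fun n => ?_⟩
      have h1 : ‖e n‖ ≤ 1 := by
        have h2 : e n = s n - (s n - e n) := by ring
        rw [h2]
        exact ultra_sub (hs1 n) ((h n).trans (min_le_right _ _))
      have h1' : ‖e' n‖ ≤ 1 := by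
        have h2 : e' n = s' n - (s' n - e' n) := by ring
        rw [h2]
        exact ultra_sub (hs1' n) ((h' n).trans (min_le_right _ _))
      have h3 : (s * s') n - (e * e') n = s n * (s' n - e' n) + (s n - e n) * e' n := by
        simp only [Pi.mul_apply]
        ring
      rw [h3]
      refine ultra_add ?_ ?_
      · rw [norm_mul]
        exact (mul_le_of_le_one_left (norm_nonneg _) (hs1 n)).trans
          ((h' n).trans (min_le_left _ _))
      · rw [norm_mul]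
        exact (mul_le_of_le_one_right (norm_nonneg _) h1').trans ((h n).trans (min_le_left _ _))
    · rw [Pi.mul_apply, norm_mul]
      exact mul_le_one₀ (hs1 n) (norm_nonneg _) (hs1' n)
  one_mem' := ⟨fun ε hε => ⟨fun _ => 1, cf_const M 1, fun n => by simp [hε.le]⟩, fun n => by simp⟩
  add_mem' := by
    rintro s s' ⟨hs, hs1⟩ ⟨hs', hs1'⟩
    refine ⟨fun ε hε => ?_, fun n => ultra_add (hs1 n) (hs1' n)⟩
    obtain ⟨e, he, h⟩ := hs ε hε
    obtain ⟨e', he', h'⟩ := hs' ε hε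
    refine ⟨e + e', cf_add he he', fun n => ?_⟩
    have h3 : (s + s') n - (e + e') n = (s n - e n) + (s' n - e' n) := by
      simp only [Pi.add_apply]
      ring
    rw [h3]
    exact ultra_add (h n) (h' n)
  zero_mem' := ⟨fun ε hε => ⟨0, cf_zero M, fun n => by simp [hε.le]⟩, fun n => by simp⟩
  neg_mem' := by
    rintro s ⟨hs, hs1⟩
    refine ⟨fun ε hε => ?_, fun n => by rw [Pi.neg_apply, norm_neg]; exact hs1 n⟩
    obtain ⟨e, he, h⟩ := hs ε hε
    refine ⟨(-1 : K) • e, cf_smul _ he, fun n => ?_⟩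
    have h3 : (-s) n - ((-1 : K) • e) n = -(s n - e n) := by
      simp only [Pi.neg_apply, Pi.smul_apply, smul_eq_mul]
      ring
    rw [h3, norm_neg]
    exact h n

variable {M : Submonoid K}

theorem mem_SS {s : ℕ → K} : s ∈ SS M ↔ Clo M s ∧ ∀ n, ‖s n‖ ≤ 1 := Iff.rfl

theorem ss_closed {s : ℕ → K} (h : ∀ ε : ℝ, 0 < ε → ∃ s' ∈ SS M, ∀ n, ‖s n - s' n‖ ≤ ε) :
    s ∈ SS M := by
  refine ⟨fun ε hε => ?_, fun n => ?_⟩
  · obtain ⟨s', hs', h1⟩ := h ε hε
    obtain ⟨e, he, h2⟩ := hs'.1 ε hε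
    refine ⟨e, he, fun n => ?_⟩
    have h3 : s n - e n = (s n - s' n) + (s' n - e n) := by ring
    rw [h3]
    exact ultra_add (h1 n) (h2 n)
  · obtain ⟨s', hs', h1⟩ := h 1 one_pos
    have h3 : s n = (s n - s' n) + s' n := by ring
    rw [h3]
    exact ultra_add (h1 n) (hs'.2 n)

theorem ss_const {c : K} (hc : ‖c‖ ≤ 1) : (fun _ => c : ℕ → K) ∈ SS M :=
  ⟨fun ε hε => ⟨fun _ => c, cf_const M c, fun n => by simp [hε.le]⟩, fun n => hc⟩

theorem ss_shift {s : ℕ → K} (hs : s ∈ SS M) : (fun n => s (n + 1)) ∈ SS M := by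
  refine ⟨fun ε hε => ?_, fun n => hs.2 _⟩
  obtain ⟨e, he, h⟩ := hs.1 ε hε
  exact ⟨fun n => e (n + 1), cf_shift he, fun n => h _⟩

theorem ss_inv {s : ℕ → K} (hs : s ∈ SS M) {c : K} (hc : ‖c‖ = 1) {θ : ℝ} (hθ0 : 0 ≤ θ)
    (hθ : θ < 1) (h : ∀ n, ‖s n - c‖ ≤ θ) : (fun n => (s n)⁻¹) ∈ SS M := by
  have hc0 : c ≠ 0 := by
    rintro rfl
    rw [norm_zero] at hc
    exact zero_ne_one hc
  have hci : ‖c⁻¹‖ ≤ 1 := by rw [norm_inv, hc, inv_one]
  let q : ℕ → K := fun n => 1 - s n * c⁻¹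
  have hq : q ∈ SS M := (SS M).sub_mem (SS M).one_mem ((SS M).mul_mem hs (ss_const hci))
  have hqθ : ∀ n, ‖q n‖ ≤ θ := by
    intro n
    have h1 : q n = -((s n - c) * c⁻¹) := by
      simp only [q]
      field_simp
      ring
    rw [h1, norm_neg, norm_mul]
    exact (mul_le_of_le_one_right (norm_nonneg _) hci).trans (h n)
  have hs0 : ∀ n, ‖s n‖ = 1 := by
    intro n
    have h1 : s n = c + (s n - c) := by ring
    rw [h1, IsUltrametricDist.norm_add_eq_max_of_norm_ne_norm, hc]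
    · exact max_eq_left ((h n).trans hθ.le)
    · rw [hc]
      exact ((h n).trans_lt hθ).ne'
  have hsne : ∀ n, s n ≠ 0 := by
    intro n h0
    have := hs0 n
    rw [h0, norm_zero] at this
    exact zero_ne_one this
  refine ss_closed fun ε hε => ?_
  obtain ⟨i, hi⟩ := exists_pow_lt_of_lt_one hε hθ
  refine ⟨fun n => c⁻¹ * ∑ j ∈ Finset.range i, q n ^ j, ?_, fun n => ?_⟩
  · have h1 : (fun n => c⁻¹ * ∑ j ∈ Finset.range i, q n ^ j) =
        (fun _ => c⁻¹) * ∑ j ∈ Finset.range i, q ^ j := by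
      funext n
      simp
    rw [h1]
    exact (SS M).mul_mem (ss_const hci) ((SS M).sum_mem fun j _ => (SS M).pow_mem hq j)
  · have h1 : (s n)⁻¹ - c⁻¹ * ∑ j ∈ Finset.range i, q n ^ j = (s n)⁻¹ * q n ^ i := by
      have h2 : (1 - q n) * ∑ j ∈ Finset.range i, q n ^ j = 1 - q n ^ i := mul_neg_geom_sum _ _
      have h3 : 1 - q n = s n * c⁻¹ := by
        simp only [q]
        ring
      rw [h3] at h2
      have h4 := hsne n
      have h5 : c⁻¹ * ∑ j ∈ Finset.range i, q n ^ j = (s n)⁻¹ * (1 - q n ^ i) := by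
        rw [← h2]
        field_simp
      rw [h5]
      ring
    rw [h1, norm_mul, norm_inv, hs0, inv_one, one_mul, norm_pow]
    exact (pow_le_pow_left₀ (norm_nonneg _) (hqθ n) i).trans hi.le

end ss

section sol

variable {K : Type} [NormedField K] [IsUltrametricDist K] {ι : Type} [Fintype ι] [DecidableEq ι]

theorem mulVec_le {Λ : Matrix ι ι K} (hΛ : ∀ i j, ‖Λ i j‖ ≤ 1) {x : ι → K} {C : ℝ} (hC : 0 ≤ C)
    (hx : ∀ i, ‖x i‖ ≤ C) (i : ι) : ‖Λ.mulVec x i‖ ≤ C := by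
  rw [Matrix.mulVec, dotProduct]
  refine IsUltrametricDist.norm_sum_le_of_forall_le_of_nonneg hC fun j _ => ?_
  rw [norm_mul]
  exact (mul_le_of_le_one_left (norm_nonneg _) (hΛ i j)).trans (hx j)

theorem ss_sol {M : Submonoid K} (Λ : Matrix ι ι K) (hΛ1 : ∀ i j, ‖Λ i j‖ ≤ 1) (s : Multiset K)
    (hs : ∀ μ ∈ s, μ ∈ M) (hΛ : Λ.charpoly = pol s) (w R : ℕ → ι → K)
    (hR : ∀ i, (fun n => R n i) ∈ SS M) (hw0 : ∀ i, ‖w 0 i‖ ≤ 1)
    (hw : ∀ n, w (n + 1) = Λ.mulVec (w n) + R n) (i : ι) : (fun n => w n i) ∈ SS M := by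
  have hbd : ∀ n i, ‖w n i‖ ≤ 1 := by
    intro n
    induction n with
    | zero => exact hw0
    | succ n ih =>
      intro i
      rw [hw]
      exact ultra_add (mulVec_le hΛ1 zero_le_one ih i) ((hR i).2 n)
  refine ⟨fun ε hε => ?_, fun n => hbd n i⟩
  choose e he heR using fun i => (hR i).1 ε hε
  let w' : ℕ → ι → K := fun n => Nat.rec (w 0) (fun n x => Λ.mulVec x + fun i => e i n) n
  have hw' : ∀ n, w' (n + 1) = Λ.mulVec (w' n) + fun i => e i n := fun n => rfl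
  refine ⟨fun n => w' n i, cf_sol Λ s hs hΛ w' (fun n i => e i n) he hw' i, fun n => ?_⟩
  have key : ∀ n i, ‖w n i - w' n i‖ ≤ ε := by
    intro n
    induction n with
    | zero =>
      intro i
      have : w' 0 = w 0 := rfl
      rw [this, sub_self, norm_zero]
      exact hε.le
    | succ n ih =>
      intro i
      have h1 : w (n + 1) i - w' (n + 1) i = Λ.mulVec (w n - w' n) i + (R n i - e i n) := by
        rw [hw, hw', Matrix.mulVec_sub]
        simp only [Pi.add_apply, Pi.sub_apply]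
        ring
      rw [h1]
      exact ultra_add (mulVec_le hΛ1 hε.le ih i) (heR i n)
  exact key n i

end sol

section dich

variable {K : Type} [NormedField K] [IsUltrametricDist K]

/-- the dichotomy -/
theorem ss_dich (Ψ : oK K →+* ℂ) (hΨ : ∀ x, Ψ x = 0 ↔ ‖(x : K)‖ < 1) (M M' : Submonoid K) (N : ℕ)
    (hM : ∀ μ ∈ M, μ ^ N ∈ M') (hM1 : ∀ μ ∈ M', ‖μ‖ = 1)
    (hR : ∀ a ∈ M', ∀ b ∈ M', ∀ j : ℕ, j ≠ 0 → ‖(a / b) ^ j - 1‖ < 1 → ‖a / b - 1‖ < 1)
    {s : ℕ → K} (hs : s ∈ SS M) (r : ℕ) :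
    (∀ j, s (N * j + r) = 0) ∨ ∃ δ : ℝ, 0 < δ ∧ ∀ᶠ j in atTop, ‖s (N * j + r)‖ = δ := by
  by_cases h0 : ∀ j, s (N * j + r) = 0
  · exact Or.inl h0
  right
  push Not at h0
  obtain ⟨j₀, hj₀⟩ := h0
  have hpos : 0 < ‖s (N * j₀ + r)‖ := norm_pos_iff.2 hj₀
  obtain ⟨e, he, h⟩ := hs.1 (‖s (N * j₀ + r)‖ / 2) (half_pos hpos)
  obtain ⟨t, ht, het⟩ := cf_cls N r hM he
  have he0 : (fun n => e (N * n + r)) ≠ 0 := by
    intro h1
    have h2 := congrFun h1 j₀
    have h3 := h (N * j₀ + r)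
    simp only [Pi.zero_apply] at h2
    rw [h2, sub_zero] at h3
    linarith
  obtain ⟨β, hβ, hβ1, hβ2⟩ := strongB Ψ hΨ (M' : Set K)
    (fun a ha b hb _ _ j hj hlt => hR a ha b hb j hj hlt) t
    (fun μ hμ => ⟨ht μ hμ, hM1 μ (ht μ hμ)⟩) _ het he0
  have hβge : ‖s (N * j₀ + r)‖ ≤ β := by
    refine le_trans ?_ (hβ1 j₀)
    by_contra hlt
    rw [not_le] at hlt
    have h3 := h (N * j₀ + r)
    have h4 : s (N * j₀ + r) = (s (N * j₀ + r) - e (N * j₀ + r)) + e (N * j₀ + r) := by ring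
    have h5 : ‖s (N * j₀ + r)‖ < ‖s (N * j₀ + r)‖ := by
      conv_lhs => rw [h4]
      refine (IsUltrametricDist.norm_add_le_max _ _).trans_lt (max_lt ?_ hlt)
      linarith
    exact lt_irrefl _ h5
  refine ⟨β, hβ, ?_⟩
  filter_upwards [hβ2] with j hj
  have h4 : s (N * j + r) = e (N * j + r) + (s (N * j + r) - e (N * j + r)) := by ring
  have h5 : ‖s (N * j + r) - e (N * j + r)‖ < β := by
    have := h (N * j + r)
    linarith
  rw [h4, IsUltrametricDist.norm_add_eq_max_of_norm_ne_norm, hj]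
  · exact max_eq_left h5.le
  · rw [hj]
    exact h5.ne'

end dich

end Pool.Agent.N137.SH
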