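import Pool.Agent.N137.SH.Pl

set_option autoImplicit false
set_option linter.style.haveILetI false

/-!
# Sequences with an expansion in powers of a fast sequence
-/

namespace Pool.Agent.N137.SH

open MvPolynomial Filter Topology Pool.Agent.N137.AO

section tk

variable {K : Type} [NormedField K] [IsUltrametricDist K]

/-- sequences with an expansion of order `k` in powers of `u` -/
def TT (M : Submonoid K) (u : ℕ → K) : ℕ → (ℕ → K) → Prop
  | 0, s => ∀ n, ‖s n‖ ≤ 1
  | k + 1, s => ∃ c ∈ SS M, ∃ s', TT M u k s' ∧ s = c + u * s'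

variable {M : Submonoid K} {u : ℕ → K}

theorem tt_zero {s : ℕ → K} : TT M u 0 s ↔ ∀ n, ‖s n‖ ≤ 1 := Iff.rfl

theorem tt_succ {k : ℕ} {s : ℕ → K} :
    TT M u (k + 1) s ↔ ∃ c ∈ SS M, ∃ s', TT M u k s' ∧ s = c + u * s' := Iff.rfl

theorem tt_ss (k : ℕ) {s : ℕ → K} (hs : s ∈ SS M) : TT M u k s := by
  induction k generalizing s with
  | zero => exact hs.2
  | succ k ih => exact ⟨s, hs, 0, ih (SS M).zero_mem, by simp⟩

theorem tt_add {k : ℕ} {s t : ℕ → K} (hs : TT M u k s) (ht : TT M u k t) : TT M u k (s + t) := by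
  induction k generalizing s t with
  | zero => exact fun n => ultra_add (hs n) (ht n)
  | succ k ih =>
    obtain ⟨c, hc, s', hs', rfl⟩ := hs
    obtain ⟨e, he, t', ht', rfl⟩ := ht
    exact ⟨c + e, (SS M).add_mem hc he, s' + t', ih hs' ht', by ring⟩

theorem tt_neg {k : ℕ} {s : ℕ → K} (hs : TT M u k s) : TT M u k (-s) := by
  induction k generalizing s with
  | zero => exact fun n => by rw [Pi.neg_apply, norm_neg]; exact hs n
  | succ k ih =>
    obtain ⟨c, hc, s', hs', rfl⟩ := hs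
    exact ⟨-c, (SS M).neg_mem hc, -s', ih hs', by ring⟩

variable (hu : ∀ n, ‖u n‖ ≤ 1)

include hu

theorem tt_mono1 {k : ℕ} {s : ℕ → K} (hs : TT M u (k + 1) s) : TT M u k s := by
  induction k generalizing s with
  | zero =>
    obtain ⟨c, hc, s', hs', rfl⟩ := hs
    intro n
    refine ultra_add (hc.2 n) ?_
    rw [Pi.mul_apply, norm_mul]
    exact mul_le_one₀ (hu n) (norm_nonneg _) (hs' n)
  | succ k ih =>
    obtain ⟨c, hc, s', hs', rfl⟩ := hs
    exact ⟨c, hc, s', ih hs', rfl⟩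

theorem tt_mono {j k : ℕ} (hjk : j ≤ k) {s : ℕ → K} (hs : TT M u k s) : TT M u j s := by
  induction k, hjk using Nat.le_induction with
  | base => exact hs
  | succ k _ ih => exact ih (tt_mono1 hu hs)

theorem tt_u (k : ℕ) : TT M u k u := by
  rcases k with _ | k
  · exact hu
  · exact ⟨0, (SS M).zero_mem, 1, tt_ss k (SS M).one_mem, by simp⟩

theorem tt_mul {k : ℕ} {s t : ℕ → K} (hs : TT M u k s) (ht : TT M u k t) : TT M u k (s * t) := by
  induction k generalizing s t with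
  | zero =>
    intro n
    rw [Pi.mul_apply, norm_mul]
    exact mul_le_one₀ (hs n) (norm_nonneg _) (ht n)
  | succ k ih =>
    obtain ⟨c, hc, s', hs', rfl⟩ := hs
    obtain ⟨e, he, t', ht', rfl⟩ := ht
    refine ⟨c * e, (SS M).mul_mem hc he, c * t' + s' * e + u * (s' * t'), ?_, by ring⟩
    exact tt_add (tt_add (ih (tt_ss k hc) ht') (ih hs' (tt_ss k he)))
      (ih (tt_u hu k) (ih hs' ht'))

/-- the ring of sequences with an expansion of order `k` -/
def TR (M : Submonoid K) (hu : ∀ n, ‖u n‖ ≤ 1) (k : ℕ) : Subring (ℕ → K) where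
  carrier := {s | TT M u k s}
  mul_mem' := tt_mul hu
  one_mem' := tt_ss k (SS M).one_mem
  add_mem' := tt_add
  zero_mem' := tt_ss k (SS M).zero_mem
  neg_mem' := tt_neg

theorem mem_TR {k : ℕ} {s : ℕ → K} : s ∈ TR M hu k ↔ TT M u k s := Iff.rfl

theorem tr_const {k : ℕ} (c : K) (hc : ‖c‖ ≤ 1) : (fun _ => c) ∈ TR M hu k :=
  tt_ss k (ss_const hc)

theorem tt_umul {k : ℕ} {s : ℕ → K} (hs : TT M u k s) : TT M u (k + 1) (u * s) :=
  ⟨0, (SS M).zero_mem, s, hs, by simp⟩

theorem tt_upow {j k : ℕ} {s : ℕ → K} (hs : TT M u j s) : TT M u (k + j) (u ^ k * s) := by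
  induction k with
  | zero => simpa using hs
  | succ k ih =>
    have h1 : u ^ (k + 1) * s = u * (u ^ k * s) := by ring
    have h2 : k + 1 + j = k + j + 1 := by ring
    rw [h1, h2]
    exact tt_umul hu ih

theorem tt_split {k : ℕ} {s : ℕ → K} (hs : TT M u k s) :
    ∃ q δ : ℕ → K, (∀ j, TT M u j q) ∧ TT M u 0 δ ∧ s = q + u ^ k * δ := by
  induction k generalizing s with
  | zero => exact ⟨0, s, fun j => tt_ss j (SS M).zero_mem, hs, by simp⟩
  | succ k ih =>
    obtain ⟨c, hc, s', hs', rfl⟩ := hs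
    obtain ⟨q, δ, hq, hδ, rfl⟩ := ih hs'
    refine ⟨c + u * q, δ, fun j => tt_add (tt_ss j hc) (tt_mul hu (tt_u hu j) (hq j)), hδ, ?_⟩
    ring

theorem tt_shift {H : ℕ → K} (huH : ∀ n, u (n + 1) = u n ^ 2 * H n) {k : ℕ} (hH : TT M u k H)
    {s : ℕ → K} (hs : TT M u k s) : TT M u k (fun n => s (n + 1)) := by
  induction k generalizing s with
  | zero => exact fun n => hs _
  | succ k ih =>
    obtain ⟨c, hc, s', hs', rfl⟩ := hs
    have hH' := tt_mono1 hu hH
    refine ⟨fun n => c (n + 1), ss_shift hc, u * (H * fun n => s' (n + 1)),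
      tt_mul hu (tt_u hu k) (tt_mul hu hH' (ih hH' hs')), ?_⟩
    funext n
    simp only [Pi.add_apply, Pi.mul_apply, huH]
    ring

theorem tt_shift' {H : ℕ → K} (huH : ∀ n, u (n + 1) = u n ^ 2 * H n) {k : ℕ}
    (hH : TT M u k H) {s : ℕ → K} (hs : TT M u (k + 1) s) :
    TT M u (k + 2) (fun n => s (n + 1)) := by
  obtain ⟨c, hc, s', hs', rfl⟩ := hs
  refine ⟨fun n => c (n + 1), ss_shift hc, u * (H * fun n => s' (n + 1)),
    tt_umul hu (tt_mul hu hH (tt_shift hu huH hH hs')), ?_⟩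
  funext n
  simp only [Pi.add_apply, Pi.mul_apply, huH]
  ring

/-- a small sequence -/
theorem tt_of_le {k : ℕ} (hu0 : ∀ n, u n ≠ 0) {s : ℕ → K} (hs : ∀ n, ‖s n‖ ≤ ‖u n‖ ^ k) :
    TT M u k s := by
  have h1 : s = u ^ k * fun n => s n / u n ^ k := by
    funext n
    have := pow_ne_zero k (hu0 n)
    simp only [Pi.mul_apply, Pi.pow_apply]
    field_simp
  rw [h1]
  have h2 := tt_upow (M := M) hu (j := 0) (k := k) (s := fun n => s n / u n ^ k) (by
    intro n
    have h3 : 0 < ‖u n ^ k‖ := norm_pos_iff.2 (pow_ne_zero k (hu0 n))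
    show ‖s n / u n ^ k‖ ≤ 1
    rw [norm_div, div_le_one h3, norm_pow]
    exact hs n)
  rwa [add_zero] at h2

/-- **The dichotomy** for sequences with expansions of all orders. -/
theorem tt_dich (hu0 : ∀ n, u n ≠ 0) (hut : Tendsto (fun n => ‖u n‖) atTop (𝓝 0)) (N r : ℕ)
    (hN : N ≠ 0)
    (hdich : ∀ s ∈ SS M, (∀ j, s (N * j + r) = 0) ∨
      ∃ δ : ℝ, 0 < δ ∧ ∀ᶠ j in atTop, ‖s (N * j + r)‖ = δ)
    {s : ℕ → K} (hs : ∀ k, TT M u k s) :
    (∀ᶠ j in atTop, s (N * j + r) = 0) ∨ (∀ᶠ j in atTop, s (N * j + r) ≠ 0) := by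
  have hut' : Tendsto (fun j : ℕ => ‖u (N * j + r)‖) atTop (𝓝 0) :=
    hut.comp (tend_cls N r hN)
  have key : ∀ (k : ℕ) (s : ℕ → K), TT M u k s →
      (∀ j, ‖s (N * j + r)‖ ≤ ‖u (N * j + r)‖ ^ k) ∨ (∀ᶠ j in atTop, s (N * j + r) ≠ 0) := by
    intro k
    induction k with
    | zero =>
      intro s hs
      left
      intro j
      rw [pow_zero]
      exact hs _
    | succ k ih =>
      rintro _ ⟨c, hc, s', hs', rfl⟩
      rcases hdich c hc with h | ⟨δ, hδ, h⟩
      · rcases ih s' hs' with h1 | h1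
        · left
          intro j
          rw [Pi.add_apply, h j, zero_add, Pi.mul_apply, norm_mul, pow_succ']
          exact mul_le_mul_of_nonneg_left (h1 j) (norm_nonneg _)
        · right
          filter_upwards [h1] with j hj
          rw [Pi.add_apply, h j, zero_add, Pi.mul_apply]
          exact mul_ne_zero (hu0 _) hj
      · right
        filter_upwards [h, hut'.eventually_lt_const hδ] with j hj1 hj2 h0
        rw [Pi.add_apply, Pi.mul_apply] at h0
        have h1 : c (N * j + r) = -(u (N * j + r) * s' (N * j + r)) := eq_neg_of_add_eq_zero_left h0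
        rw [h1, norm_neg, norm_mul] at hj1
        have h2 : ‖s' (N * j + r)‖ ≤ 1 := (tt_mono hu (Nat.zero_le k) hs') _
        have h3 : ‖u (N * j + r)‖ * ‖s' (N * j + r)‖ ≤ ‖u (N * j + r)‖ :=
          mul_le_of_le_one_right (norm_nonneg _) h2
        linarith
  by_cases hall : ∀ k, ∀ j, ‖s (N * j + r)‖ ≤ ‖u (N * j + r)‖ ^ k
  · left
    filter_upwards [hut'.eventually_lt_const one_pos] with j hj
    have h1 := tendsto_pow_atTop_nhds_zero_of_lt_one (norm_nonneg (u (N * j + r))) hj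
    exact norm_le_zero_iff.1 (ge_of_tendsto' h1 fun k => hall k j)
  · right
    push Not at hall
    obtain ⟨k, j, hj⟩ := hall
    rcases key k s (hs k) with h | h
    · exact absurd (h j) (not_le.2 hj)
    · exact h

end tk

end Pool.Agent.N137.SH
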